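import Pool.Agent.Q178.Snf.Words

set_option autoImplicit false

/-!
The levels of free Abelian topological groups.
-/

universe u

namespace Q178.Snf

open Set Filter Topology

/-! ### snf-countability of subspaces in terms of sequences of sets -/

lemma SnfCountable.exists_seq {Y : Type u} [TopologicalSpace Y] {S : Set Y}
    (h : SnfCountable S) {y : Y} (hy : y ∈ S) :
    ∃ P : ℕ → Set Y, (∀ m n, m ≤ n → P n ⊆ P m) ∧
      (∀ k (s : ℕ → Y), (∀ j, s j ∈ S) → Tendsto s atTop (𝓝 y) → ∀ᶠ j in atTop, s j ∈ P k) ∧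
      ∀ U : Set Y, IsOpen U → y ∈ U → ∃ k, P k ⊆ U := by
  obtain ⟨𝓕, hc, hF⟩ := h
  obtain ⟨h1, h2, h3⟩ := hF ⟨y, hy⟩
  have hne : (𝓕 ⟨y, hy⟩).Nonempty := by
    obtain ⟨P, hP, -⟩ := h3 univ isOpen_univ trivial
    exact ⟨P, hP⟩
  obtain ⟨Q, hQ⟩ := (hc ⟨y, hy⟩).exists_eq_range hne
  -- finite intersections
  refine ⟨fun k => Subtype.val '' (⋂ i ∈ Iic k, Q i), ?_, ?_, ?_⟩
  · intro m n hmn
    apply image_mono
    exact biInter_subset_biInter_left (Iic_subset_Iic.2 hmn)
  · intro k s hs hsy
    have h4 : Tendsto (fun j => (⟨s j, hs j⟩ : S)) atTop (𝓝 ⟨y, hy⟩) := by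
      rw [tendsto_subtype_rng]
      exact hsy
    have h5 : ∀ᶠ j in atTop, ∀ i ∈ Iic k, (⟨s j, hs j⟩ : S) ∈ Q i := by
      rw [eventually_all_finite (finite_Iic k)]
      intro i _
      exact h1 (Q i) (hQ ▸ mem_range_self i) _ h4
    filter_upwards [h5] with j hj
    exact ⟨⟨s j, hs j⟩, by simpa using hj, rfl⟩
  · intro U hU hyU
    obtain ⟨P, hP, -, hPU⟩ := h3 (Subtype.val ⁻¹' U) (hU.preimage continuous_subtype_val) hyU
    rw [hQ] at hP
    obtain ⟨k, rfl⟩ := hP
    refine ⟨k, ?_⟩
    rintro _ ⟨z, hz, rfl⟩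
    exact hPU (mem_iInter₂.1 hz k (mem_Iic.2 le_rfl))

lemma SnfCountable.of_seq {Y : Type u} [TopologicalSpace Y] {S : Set Y}
    (R : Y → ℕ → Set Y) (h1 : ∀ y ∈ S, ∀ m n, m ≤ n → R y n ⊆ R y m)
    (h2 : ∀ y ∈ S, ∀ k (s : ℕ → Y), (∀ j, s j ∈ S) → Tendsto s atTop (𝓝 y) →
      ∀ᶠ j in atTop, s j ∈ R y k)
    (h3 : ∀ y ∈ S, ∀ U : Set Y, IsOpen U → y ∈ U → ∃ k, R y k ∩ S ⊆ U) :
    SnfCountable S := by
  refine ⟨fun y => range fun k => (Subtype.val : S → Y) ⁻¹' (R y k),
    fun y => countable_range _, fun y => ⟨?_, ?_, ?_⟩⟩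
  · rintro _ ⟨k, rfl⟩ s hs
    exact h2 y y.2 k (fun j => (s j : Y)) (fun j => (s j).2)
      ((continuous_subtype_val.tendsto y).comp hs)
  · rintro _ ⟨m, rfl⟩ _ ⟨n, rfl⟩
    refine ⟨_, ⟨max m n, rfl⟩, ?_⟩
    rintro z hz
    exact ⟨h1 y y.2 m _ (le_max_left _ _) hz, h1 y y.2 n _ (le_max_right _ _) hz⟩
  · intro U hU hyU
    obtain ⟨V, hV, rfl⟩ := isOpen_induced_iff.1 hU
    obtain ⟨k, hk⟩ := h3 y y.2 V hV hyU
    refine ⟨_, ⟨k, rfl⟩, ?_, fun z hz => hk ⟨hz, z.2⟩⟩
    obtain ⟨j, hj⟩ := (h2 y y.2 k (fun _ => (y : Y)) (fun _ => y.2) tendsto_const_nhds).exists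
    exact hj

/-! ### Words in `A(X)` -/

section words

variable {X : Type u}

/-- A generator with a sign. -/
noncomputable def sgA (p : X × Bool) : A X := if p.2 then ofA p.1 else -ofA p.1

/-- The value of a word. -/
noncomputable def valA (L : List (X × Bool)) : A X := (L.map sgA).sum

@[simp] lemma valA_nil : valA ([] : List (X × Bool)) = 0 := rfl

@[simp] lemma valA_cons (p : X × Bool) (L : List (X × Bool)) :
    valA (p :: L) = sgA p + valA L := by simp [valA]

lemma alength_add (a b : A X) : alength (a + b) ≤ alength a + alength b := by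
  classical
  let a' : X →₀ ℤ := a
  let b' : X →₀ ℤ := b
  change (a' + b').sum (fun _ m => m.natAbs) ≤
    a'.sum (fun _ m => m.natAbs) + b'.sum (fun _ m => m.natAbs)
  have h0 : ∀ i : X, (fun (_ : X) (m : ℤ) => m.natAbs) i 0 = 0 := fun _ => rfl
  rw [Finsupp.sum_of_support_subset (a' + b') Finsupp.support_add _ (fun i _ => h0 i),
    Finsupp.sum_of_support_subset a' (Finset.subset_union_left (s₂ := b'.support)) _
      (fun i _ => h0 i),
    Finsupp.sum_of_support_subset b' (Finset.subset_union_right (s₁ := a'.support)) _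
      (fun i _ => h0 i), ← Finset.sum_add_distrib]
  apply Finset.sum_le_sum
  intro i _
  simp only [Finsupp.add_apply]
  exact Int.natAbs_add_le _ _

lemma alength_sgA (p : X × Bool) : alength (sgA p) ≤ 1 := by
  obtain ⟨x, b⟩ := p
  cases b
  · have : (sgA (x, false) : A X) = Finsupp.single x (-1 : ℤ) := by
      simp only [sgA, ofA]
      exact (Finsupp.single_neg x (1 : ℤ)).symm
    rw [this]
    unfold alength
    rw [Finsupp.sum_single_index] <;> simp
  · have : (sgA (x, true) : A X) = Finsupp.single x (1 : ℤ) := rfl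
    rw [this]
    unfold alength
    rw [Finsupp.sum_single_index] <;> simp

lemma alength_valA (L : List (X × Bool)) : alength (valA L) ≤ L.length := by
  induction L with
  | nil =>
    change Finsupp.sum (0 : X →₀ ℤ) (fun _ m => m.natAbs) ≤ 0
    rw [Finsupp.sum_zero_index]
  | cons p L ih =>
    rw [valA_cons, List.length_cons]
    exact (alength_add _ _).trans (by have := alength_sgA p; omega)

/-- The coefficient at a point. -/
def coeff (a : A X) (x : X) : ℤ := DFunLike.coe (F := X →₀ ℤ) a x

lemma exists_word (a : A X) : ∃ L : List (X × Bool), L.length = alength a ∧ valA L = a ∧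
    ∀ p ∈ L, coeff a p.1 ≠ 0 := by
  let f : X →₀ ℤ := a
  refine ⟨f.support.toList.flatMap fun x => List.replicate (f x).natAbs (x, decide (0 < f x)),
    ?_, ?_, ?_⟩
  · rw [List.length_flatMap]
    simp only [List.length_replicate]
    rw [Finset.sum_map_toList]
    rfl
  · have h1 : ∀ l : List X, valA (l.flatMap fun x =>
        List.replicate (f x).natAbs (x, decide (0 < f x))) =
        (l.map fun x => (Finsupp.single x (f x) : X →₀ ℤ)).sum := by
      intro l
      induction l with
      | nil => rfl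
      | cons x l ih =>
        rw [List.flatMap_cons, valA, List.map_append, List.sum_append, List.map_cons,
          List.sum_cons]
        have h2 : (List.map sgA (List.replicate (f x).natAbs (x, decide (0 < f x)))).sum =
            (Finsupp.single x (f x) : X →₀ ℤ) := by
          rw [List.map_replicate, List.sum_replicate]
          by_cases hx : 0 < f x
          · have h3 : (sgA (x, decide (0 < f x)) : A X) = (Finsupp.single x (1 : ℤ) : X →₀ ℤ) := by
              rw [decide_eq_true hx]
              rfl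
            rw [h3]
            change (f x).natAbs • (Finsupp.single x (1 : ℤ) : X →₀ ℤ) = _
            rw [Finsupp.smul_single]
            congr 1
            simp only [nsmul_eq_mul, mul_one]
            exact Int.natAbs_of_nonneg hx.le
          · have h3 : (sgA (x, decide (0 < f x)) : A X) = (Finsupp.single x (-1 : ℤ) : X →₀ ℤ) := by
              rw [decide_eq_false hx]
              exact (Finsupp.single_neg x (1 : ℤ)).symm
            rw [h3]
            change (f x).natAbs • (Finsupp.single x (-1 : ℤ) : X →₀ ℤ) = _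
            rw [Finsupp.smul_single]
            congr 1
            simp only [nsmul_eq_mul, mul_neg, mul_one]
            push Not at hx
            rw [Int.ofNat_natAbs_of_nonpos hx]
            ring
        rw [h2]
        exact congrArg _ ih
    rw [h1, Finset.sum_map_toList]
    exact Finsupp.sum_single f
  · intro p hp
    rw [List.mem_flatMap] at hp
    obtain ⟨x, hx, hp⟩ := hp
    rw [List.mem_replicate] at hp
    rw [hp.2]
    rw [Finset.mem_toList, Finsupp.mem_support_iff] at hx
    exact hx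

end words

/-! ### The free Abelian topological group is Hausdorff -/

section hausdorff

variable {X : Type u} [TopologicalSpace X]

lemma continuous_valA_of_LConv {L : ℕ → List (X × Bool)} {M : List (X × Bool)}
    (h : LConv L M) : Tendsto (fun j => valA (L j)) atTop (𝓝 (valA M)) := by
  induction h with
  | nil => exact tendsto_const_nhds
  | cons x a b L M hx _ ih =>
    simp only [valA_cons]
    refine Tendsto.add ?_ ih
    have h1 : Tendsto (fun j => ofA (x j)) atTop (𝓝 (ofA a)) :=
      (continuous_ofA.tendsto a).comp hx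
    cases b
    · exact h1.neg
    · exact h1

/-- A function which separates a point from a finite set. -/
lemma exists_separating [T35Space X] (x : X) (S : Finset X) (hx : x ∉ S) :
    ∃ f : X → ℝ, Continuous f ∧ f x = 1 ∧ (∀ y ∈ S, f y = 0) ∧ ∀ y, 0 ≤ f y ∧ f y ≤ 1 := by
  obtain ⟨f, hf, hf0, hf1⟩ := CompletelyRegularSpace.completely_regular x (S : Set X)
    S.finite_toSet.isClosed (by simpa using hx)
  refine ⟨fun y => 1 - (f y : ℝ), by fun_prop, by simp [hf0], fun y hy => ?_, fun y => ?_⟩
  · have : f y = 1 := hf1 hy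
    simp [this]
  · have := (f y).2
    constructor <;> linarith [this.1, this.2]

omit [TopologicalSpace X] in
lemma liftA_eq (f : X → ℝ) (a : A X) :
    liftA f a = Finsupp.sum (a : X →₀ ℤ) fun x m => (m : ℝ) * f x := by
  refine (Finsupp.liftAddHom_apply _ _).trans ?_
  congr 1
  funext x m
  simp

instance [T35Space X] : T2Space (A X) := by
  apply IsTopologicalAddGroup.t2Space_of_zero_sep
  intro a ha
  let a' : X →₀ ℤ := a
  have ha' : a' ≠ 0 := ha
  obtain ⟨x, hx⟩ := Finsupp.ne_iff.1 ha'
  classical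
  obtain ⟨f, hf, hfx, hf0, -⟩ := exists_separating x (a'.support.erase x) (by simp)
  have h1 : liftA f a = (a' x : ℝ) := by
    rw [liftA_eq]
    change a'.sum (fun x m => (m : ℝ) * f x) = _
    rw [Finsupp.sum, Finset.sum_eq_single x]
    · rw [hfx, mul_one]
    · intro y hy hyx
      rw [hf0 y (Finset.mem_erase.2 ⟨hyx, hy⟩), mul_zero]
    · intro h
      rw [Finsupp.notMem_support_iff.1 h]
      simp
  refine ⟨liftA f ⁻¹' (Metric.ball 0 (1 / 2)),
    (continuous_liftA hf).continuousAt.preimage_mem_nhds ?_, ?_⟩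
  · rw [map_zero]
    exact Metric.ball_mem_nhds _ (by norm_num)
  · intro h
    rw [mem_preimage, h1, Metric.mem_ball, dist_zero_right, Real.norm_eq_abs] at h
    have h2 : (1 : ℝ) ≤ |(a' x : ℝ)| := by
      have h3 : (1 : ℤ) ≤ |a' x| := Int.one_le_abs (by simpa using hx)
      exact_mod_cast h3
    linarith

end hausdorff

end Q178.Snf
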