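import Pool.Agent.Q178.Snf.Abel

set_option autoImplicit false

/-!
The levels of free Abelian topological groups: the main theorem.
-/

universe u

namespace Q178.Snf

open Set Filter Topology

variable {X : Type u} [TopologicalSpace X]

/-- The data obtained from snf-countability at the neutral element. -/
structure SeqData (G : Type u) [TopologicalSpace G] (e : G) (S : Set G) (P : ℕ → Set G) :
    Prop where
  anti : ∀ m n, m ≤ n → P n ⊆ P m
  seq : ∀ k (s : ℕ → G), (∀ j, s j ∈ S) → Tendsto s atTop (𝓝 e) → ∀ᶠ j in atTop, s j ∈ P k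
  net : ∀ U : Set G, IsOpen U → e ∈ U → ∃ k, P k ⊆ U

/-- The traces on `X × X`. -/
def WA (P : ℕ → Set (A X)) (k : ℕ) : Set (X × X) :=
  {p | ofA p.1 - ofA p.2 ∈ P k ∧ ofA p.2 - ofA p.1 ∈ P k}

omit [TopologicalSpace X] in
lemma sub_mem_A2 (x y : X) : (ofA x - ofA y : A X) ∈ An X 2 := by
  have h1 : (ofA x - ofA y : A X) = valA [(x, true), (y, false)] := by
    simp [sgA, sub_eq_add_neg]
  rw [h1]
  exact alength_valA _

lemma trace_WA {P : ℕ → Set (A X)} (hP : SeqData (A X) 0 (An X 2) P) : Trace (WA P) := by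
  refine ⟨fun m n hmn p hp => ⟨hP.anti m n hmn hp.1, hP.anti m n hmn hp.2⟩, ?_, ?_⟩
  · intro x y k hy
    have h1 : Tendsto (fun j => ofA (y j)) atTop (𝓝 (ofA x : A X)) :=
      (continuous_ofA.tendsto x).comp hy
    have h2 : Tendsto (fun j => (ofA x - ofA (y j) : A X)) atTop (𝓝 0) := by
      have := (tendsto_const_nhds (x := (ofA x : A X))).sub h1
      rwa [sub_self] at this
    have h3 : Tendsto (fun j => (ofA (y j) - ofA x : A X)) atTop (𝓝 0) := by
      have := h1.sub (tendsto_const_nhds (x := (ofA x : A X)))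
      rwa [sub_self] at this
    filter_upwards [hP.seq k _ (fun j => sub_mem_A2 _ _) h2,
      hP.seq k _ (fun j => sub_mem_A2 _ _) h3] with j hj1 hj2
    exact ⟨hj1, hj2⟩
  · intro f hf ε hε
    obtain ⟨k, hk⟩ := hP.net (liftA f ⁻¹' (Metric.ball 0 ε))
      (Metric.isOpen_ball.preimage (continuous_liftA hf)) (by
        rw [mem_preimage, map_zero]
        exact Metric.mem_ball_self hε)
    refine ⟨k, fun x y hxy => ?_⟩
    have h1 := hk hxy.1
    rw [mem_preimage, map_sub, liftA_ofA, liftA_ofA, Metric.mem_ball, dist_zero_right] at h1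
    rwa [dist_eq_norm]

/-! ### Words close to each other -/

lemma small_sums (n : ℕ) : ∀ U : Set (A X), U ∈ 𝓝 0 → ∃ V : Set (A X), IsOpen V ∧ 0 ∈ V ∧
    ∀ l : List (A X), l.length ≤ n → (∀ a ∈ l, a ∈ V) → l.sum ∈ U := by
  induction n with
  | zero =>
    intro U hU
    refine ⟨univ, isOpen_univ, trivial, fun l hl _ => ?_⟩
    rw [List.length_eq_zero_iff.1 (Nat.le_zero.1 hl)]
    exact mem_of_mem_nhds hU
  | succ n ih =>
    intro U hU
    obtain ⟨V, hV, hV0, hVU⟩ := exists_open_nhds_zero_add_subset hU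
    obtain ⟨V', hV', hV0', hVV'⟩ := ih V (hV.mem_nhds hV0)
    refine ⟨V ∩ V', hV.inter hV', ⟨hV0, hV0'⟩, fun l hl hlV => ?_⟩
    rcases l with _ | ⟨a, l⟩
    · exact mem_of_mem_nhds hU
    · rw [List.sum_cons]
      apply hVU
      refine add_mem_add (hlV a List.mem_cons_self).1 (hVV' l ?_ fun b hb => ?_)
      · simpa using hl
      · exact (hlV b (List.mem_cons_of_mem _ hb)).2

omit [TopologicalSpace X] in
lemma exists_diff_list {P : ℕ → Set (A X)} {k : ℕ} {M L : List (X × Bool)}
    (h : List.Forall₂ (LRel (WA P k)) M L) :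
    ∃ l : List (A X), l.length = M.length ∧ (∀ a ∈ l, a ∈ P k) ∧ valA L - valA M = l.sum := by
  induction h with
  | nil => exact ⟨[], rfl, by simp, by simp⟩
  | @cons p q M L hpq _ ih =>
    obtain ⟨l, hl, hlP, hlsum⟩ := ih
    refine ⟨(sgA q - sgA p) :: l, by simp [hl], ?_, ?_⟩
    · intro a ha
      rcases List.mem_cons.1 ha with rfl | ha
      · obtain ⟨x, b⟩ := p
        obtain ⟨y, b'⟩ := q
        obtain ⟨h1, h2, h3⟩ := hpq
        simp only at h1 h2 h3
        subst h1
        cases b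
        · have : (sgA (y, false) - sgA (x, false) : A X) = ofA x - ofA y := by
            simp [sgA]
            abel
          rw [this]
          exact h2
        · exact h3
      · exact hlP a ha
    · rw [valA_cons, valA_cons, List.sum_cons, ← hlsum]
      abel

/-- The sequential neighbourhoods of the points of `A_n(X)`. -/
def RA (n : ℕ) (W : ℕ → Set (X × X)) (g : A X) (k : ℕ) : Set (A X) :=
  {h | ∃ M L : List (X × Bool), M.length ≤ n ∧ List.Forall₂ (LRel (W k)) M L ∧ valA M = g ∧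
    valA L = h}

lemma RA_network {P : ℕ → Set (A X)} {S : Set (A X)} (hP : SeqData (A X) 0 S P) (n : ℕ) (g : A X)
    (U : Set (A X)) (hU : IsOpen U) (hg : g ∈ U) : ∃ k, RA n (WA P) g k ⊆ U := by
  have h1 : (fun a => a + g) ⁻¹' U ∈ 𝓝 (0 : A X) := by
    apply (hU.preimage (by fun_prop)).mem_nhds
    simpa using hg
  obtain ⟨V, hV, hV0, hVU⟩ := small_sums n _ h1
  obtain ⟨k, hk⟩ := hP.net V hV hV0
  refine ⟨k, ?_⟩
  rintro h ⟨M, L, hM, hML, hMg, hLh⟩
  obtain ⟨l, hl, hlP, hls⟩ := exists_diff_list hML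
  have h2 := hVU l (by rw [hl]; exact hM) fun a ha => hk (hlP a ha)
  rw [← hls, hMg, hLh] at h2
  simpa using h2

/-! ### Discrete letters -/

/-- The free Abelian group on `Option ℕ` with the discrete topology. -/
def DA : Type := Option ℕ →₀ ℤ

noncomputable instance : AddCommGroup DA := inferInstanceAs (AddCommGroup (Option ℕ →₀ ℤ))
instance : TopologicalSpace DA := ⊥
instance : DiscreteTopology DA := ⟨rfl⟩

/-- The coordinates. -/
noncomputable def coordDA (c : Option ℕ) : DA →+ ℤ := Finsupp.applyAddHom c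

lemma disc_false {s : ℕ → A X} {g : A X} (hs : Tendsto s atTop (𝓝 g)) {p : ℕ → X}
    (hp : DiscSeq p) (hc : ∀ j, coeff (s j) (p j) ≠ 0) : False := by
  obtain ⟨ψ, hψ, hψp⟩ := hp.exists_map
  let q : X → DA := fun x => (Finsupp.single (ψ x) (1 : ℤ) : Option ℕ →₀ ℤ)
  have hq : Continuous q := by
    rw [continuous_def]
    intro V _
    exact hψ {c | (Finsupp.single c (1 : ℤ) : Option ℕ →₀ ℤ) ∈ V}
  have h1 : Tendsto (fun j => liftA q (s j)) atTop (𝓝 (liftA q g)) :=
    ((continuous_liftA hq).tendsto g).comp hs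
  have h2 : ∀ᶠ j in atTop, liftA q (s j) = liftA q g := by
    have := h1.eventually ((isOpen_discrete {liftA q g}).mem_nhds rfl)
    exact this
  -- the coordinates of the limit vanish
  have h3 : ∀ᶠ j in atTop, coordDA (some j) (liftA q g) = 0 := by
    let γ : Option ℕ →₀ ℤ := liftA q g
    have h4 : ∀ᶠ j in atTop, (some j : Option ℕ) ∉ γ.support := by
      have : Tendsto (fun j : ℕ => (some j : Option ℕ)) atTop cofinite := by
        rw [← Nat.cofinite_eq_atTop]
        exact (Option.some_injective ℕ).tendsto_cofinite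
      have h5 := this.eventually (γ.support.finite_toSet.compl_mem_cofinite)
      exact h5
    filter_upwards [h4] with j hj
    exact Finsupp.notMem_support_iff.1 hj
  have h4 : ∀ (j : ℕ) (a : A X), coordDA (some j) (liftA q a) = coeff a (p j) := by
    intro j
    have h5 : (coordDA (some j)).comp (liftA q) =
        (Finsupp.applyAddHom (p j) : (X →₀ ℤ) →+ ℤ) := by
      apply Finsupp.addHom_ext
      intro x m
      have h6 : (Finsupp.single x m : X →₀ ℤ) = m • (Finsupp.single x (1 : ℤ) : X →₀ ℤ) := by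
        rw [Finsupp.smul_single]
        simp
      rw [h6]
      refine (map_zsmul ((coordDA (some j)).comp (liftA q)) m (ofA x)).trans ?_
      refine Eq.trans ?_ (map_zsmul (Finsupp.applyAddHom (p j) : (X →₀ ℤ) →+ ℤ) m _).symm
      congr 1
      change coordDA (some j) (liftA q (ofA x)) = (Finsupp.single x (1 : ℤ) : X →₀ ℤ) (p j)
      rw [liftA_ofA]
      change (Finsupp.single (ψ x) (1 : ℤ) : Option ℕ →₀ ℤ) (some j) = _
      by_cases hx : x = p j
      · rw [(hψp x j).2 hx, hx, Finsupp.single_eq_same, Finsupp.single_eq_same]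
      · rw [Finsupp.single_eq_of_ne, Finsupp.single_eq_of_ne]
        · exact fun h => hx h.symm
        · exact fun h => hx ((hψp x j).1 h.symm)
    intro a
    exact DFunLike.congr_fun h5 a
  obtain ⟨j, hj2, hj3⟩ := (h2.and h3).exists
  apply hc j
  rw [← h4, hj2, hj3]

/-- **The main theorem in the Abelian case.** -/
theorem snfCountable_An [T35Space X] (hk : IsKSpace X) (hd : HasRegularGDeltaDiagonal X) {N : ℕ}
    (hN : 2 ≤ N) (h : SnfCountable (An X N)) (n : ℕ) : SnfCountable (An X n) := by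
  obtain ⟨O, hO⟩ := exists_diagSeq hd
  have hseq : SequentialSpace X := sequentialSpace hk hO
  have h0 : (0 : A X) ∈ An X N := by
    change Finsupp.sum (0 : X →₀ ℤ) (fun _ m => m.natAbs) ≤ N
    rw [Finsupp.sum_zero_index]
    exact Nat.zero_le _
  obtain ⟨P, hP1, hP2, hP3⟩ := h.exists_seq h0
  have hP : SeqData (A X) 0 (An X 2) P :=
    ⟨hP1, fun k s hs hs0 => hP2 k s (fun j => le_trans (hs j) hN) hs0, hP3⟩
  have hW : Trace (WA P) := trace_WA hP
  refine SnfCountable.of_seq (RA n (WA P)) ?_ ?_ ?_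
  · rintro g - m k hmk a ⟨M, L, hM, hML, hMg, hLa⟩
    refine ⟨M, L, hM, ?_, hMg, hLa⟩
    exact hML.imp fun p q hpq => ⟨hpq.1, hW.anti m k hmk hpq.2⟩
  · intro g _ k s hs hsg
    by_contra hcon
    rw [not_eventually] at hcon
    obtain ⟨φ, hφ, hφR⟩ := extraction_of_frequently_atTop hcon
    choose L hL1 hL2 hL3 using fun j => exists_word (s (φ j))
    obtain ⟨ψ, hψ, ⟨M, hM⟩ | ⟨p, hp, hpL⟩⟩ := extract (fun v => dichotomy hW hO v) n L
      (fun j => (hL1 j).le.trans (hs (φ j)))
    · have h1 : Tendsto (fun j => valA ((L ∘ ψ) j)) atTop (𝓝 (valA M)) :=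
        continuous_valA_of_LConv hM
      have h2 : Tendsto (fun j => valA ((L ∘ ψ) j)) atTop (𝓝 g) := by
        have : (fun j => valA ((L ∘ ψ) j)) = s ∘ (φ ∘ ψ) := funext fun j => hL2 (ψ j)
        rw [this]
        exact hsg.comp (hφ.comp hψ).tendsto_atTop
      have h3 : valA M = g := tendsto_nhds_unique h1 h2
      obtain ⟨j, hj⟩ := (hM.eventually_rel hW.seq k).exists
      apply hφR (ψ j)
      refine ⟨M, L (ψ j), ?_, hj, h3, hL2 (ψ j)⟩
      rw [← hM.length j]
      exact (hL1 (ψ j)).le.trans (hs _)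
    · refine disc_false (s := s ∘ (φ ∘ ψ)) (hsg.comp (hφ.comp hψ).tendsto_atTop) hp ?_
      intro j
      obtain ⟨b, hb⟩ := hpL j
      exact hL3 (ψ j) _ hb
  · intro g _ U hU hgU
    obtain ⟨k, hk⟩ := RA_network hP n g U hU hgU
    exact ⟨k, inter_subset_left.trans hk⟩

end Q178.Snf
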