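import Mathlib

set_option autoImplicit false

/-!
Free topological groups in the sense of Markov, snf-countable spaces, and related notions.
-/

universe u

namespace Q178.Snf

open Set Filter Topology

/-! ### Notions of general topology -/

section top

variable (X : Type u) [TopologicalSpace X]

/-- `X` is a `k`-space: a set `C` is closed whenever `C ∩ K` is closed in `K` for every compact
set `K`. -/
def IsKSpace : Prop :=
  ∀ C : Set X, (∀ K : Set X, IsCompact K → IsClosed ((Subtype.val : K → X) ⁻¹' C)) → IsClosed C

/-- `X` has a regular `G_δ`-diagonal: there are open sets `U m` of `X × X` such that the diagonal is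
the intersection of the sets `U m` and also the intersection of their closures. -/
def HasRegularGDeltaDiagonal : Prop :=
  ∃ U : ℕ → Set (X × X), (∀ m, IsOpen (U m)) ∧ diagonal X = ⋂ m, U m ∧
    diagonal X = ⋂ m, closure (U m)

variable {X}

/-- `P` is a sequential neighbourhood of `y`: every sequence converging to `y` lies in `P` from some
index on. -/
def IsSeqNhd (P : Set X) (y : X) : Prop :=
  ∀ s : ℕ → X, Tendsto s atTop (𝓝 y) → ∀ᶠ n in atTop, s n ∈ P

/-- The families `𝓕 y` form an sn-network. -/
def IsSnNetwork (𝓕 : X → Set (Set X)) : Prop :=
  ∀ y, (∀ P ∈ 𝓕 y, IsSeqNhd P y) ∧ (∀ U ∈ 𝓕 y, ∀ V ∈ 𝓕 y, ∃ W ∈ 𝓕 y, W ⊆ U ∩ V) ∧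
    ∀ U : Set X, IsOpen U → y ∈ U → ∃ P ∈ 𝓕 y, y ∈ P ∧ P ⊆ U

variable (X)

/-- `X` is snf-countable: it has an sn-network `𝓕` with all families `𝓕 y` countable. -/
def SnfCountable : Prop :=
  ∃ 𝓕 : X → Set (Set X), (∀ y, (𝓕 y).Countable) ∧ IsSnNetwork 𝓕

end top

/-! ### The free topological group -/

section free

/-- The underlying group of the free topological group on `X`: the free group on the set `X`. -/
def F (X : Type u) : Type u := FreeGroup X

instance (X : Type u) : Group (F X) := inferInstanceAs (Group (FreeGroup X))

variable {X : Type u}

/-- The inclusion of the generators. -/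
def of (x : X) : F X := FreeGroup.of x

variable [TopologicalSpace X]

/-- The topology of the free topological group `F(X)` in the sense of Markov: the finest group
topology for which the inclusion of `X` is continuous. -/
instance : TopologicalSpace (F X) :=
  sInf {t | @IsTopologicalGroup (F X) t _ ∧ @Continuous X (F X) _ t of}

instance : IsTopologicalGroup (F X) := topologicalGroup_sInf fun _ ht => ht.1

lemma continuous_of : Continuous (of : X → F X) :=
  continuous_sInf_rng.2 fun _ ht => ht.2

/-- The homomorphism which extends a map of the generators. -/
def liftF {H : Type*} [Group H] (f : X → H) : F X →* H := FreeGroup.lift f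

omit [TopologicalSpace X] in
lemma liftF_of {H : Type*} [Group H] (f : X → H) (x : X) : liftF f (of x) = f x :=
  FreeGroup.lift_apply_of

/-- The universal property. -/
lemma continuous_liftF {H : Type*} [Group H] [TopologicalSpace H] [IsTopologicalGroup H]
    {f : X → H} (hf : Continuous f) : Continuous (liftF f) := by
  rw [continuous_iff_le_induced]
  apply sInf_le
  refine ⟨topologicalGroup_induced (liftF f), ?_⟩
  rw [continuous_induced_rng]
  have h : (liftF f : F X → H) ∘ of = f := funext (liftF_of f)
  rw [h]
  exact hf

end free

/-- The length of the reduced word of an element of `F(X)`. -/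
noncomputable def flength {X : Type u} (g : F X) : ℕ := by
  classical exact (FreeGroup.toWord (g : FreeGroup X)).length

/-- The subspace `F_n(X)` of the elements whose reduced word has length at most `n`. -/
def Fn (X : Type u) (n : ℕ) : Set (F X) := {g | flength g ≤ n}

/-! ### The free Abelian topological group -/

section freeab

/-- The underlying group of the free Abelian topological group on `X`: the free Abelian group on
the set `X`. -/
def A (X : Type u) : Type u := X →₀ ℤ

noncomputable instance (X : Type u) : AddCommGroup (A X) :=
  inferInstanceAs (AddCommGroup (X →₀ ℤ))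

variable {X : Type u}

/-- The inclusion of the generators. -/
noncomputable def ofA (x : X) : A X := Finsupp.single x (1 : ℤ)

variable [TopologicalSpace X]

/-- The topology of the free Abelian topological group `A(X)` in the sense of Markov: the finest
group topology for which the inclusion of `X` is continuous. -/
noncomputable instance : TopologicalSpace (A X) :=
  sInf {t | @IsTopologicalAddGroup (A X) t _ ∧ @Continuous X (A X) _ t ofA}

instance : IsTopologicalAddGroup (A X) := topologicalAddGroup_sInf fun _ ht => ht.1

lemma continuous_ofA : Continuous (ofA : X → A X) :=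
  continuous_sInf_rng.2 fun _ ht => ht.2

/-- The homomorphism which extends a map of the generators. -/
noncomputable def liftA {H : Type*} [AddCommGroup H] (f : X → H) : A X →+ H :=
  Finsupp.liftAddHom fun x => (zmultiplesHom H) (f x)

omit [TopologicalSpace X] in
lemma liftA_ofA {H : Type*} [AddCommGroup H] (f : X → H) (x : X) : liftA f (ofA x) = f x := by
  refine (Finsupp.liftAddHom_apply_single (fun x => (zmultiplesHom H) (f x)) x (1 : ℤ)).trans ?_
  simp

/-- The universal property. -/
lemma continuous_liftA {H : Type*} [AddCommGroup H] [TopologicalSpace H] [IsTopologicalAddGroup H]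
    {f : X → H} (hf : Continuous f) : Continuous (liftA f) := by
  rw [continuous_iff_le_induced]
  apply sInf_le
  refine ⟨topologicalAddGroup_induced (liftA f), ?_⟩
  rw [continuous_induced_rng]
  have h : (liftA f : A X → H) ∘ ofA = f := funext (liftA_ofA f)
  rw [h]
  exact hf

end freeab

/-- The length of the reduced form of an element of `A(X)`: the sum of the absolute values of the
coefficients. -/
noncomputable def alength {X : Type u} (a : A X) : ℕ :=
  Finsupp.sum (a : X →₀ ℤ) fun _ m => m.natAbs

/-- The subspace `A_n(X)` of the elements of length at most `n`. -/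
def An (X : Type u) (n : ℕ) : Set (A X) := {a | alength a ≤ n}

end Q178.Snf
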