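import Pool.Agent.Q178.Snf.HM
import Pool.Agent.Q178.Snf.AbelMain

set_option autoImplicit false

/-!
The third level of free topological groups.
-/

universe u

namespace Q178.Snf

open Set Filter Topology Pointwise

variable {X : Type u} [TopologicalSpace X]

/-- The traces on `X × X`. -/
def WF (P : ℕ → Set (F X)) (k : ℕ) : Set (X × X) :=
  {p | (of p.1)⁻¹ * of p.2 ∈ P k ∧ (of p.2)⁻¹ * of p.1 ∈ P k ∧ of p.1 * (of p.2)⁻¹ ∈ P k ∧
    of p.2 * (of p.1)⁻¹ ∈ P k}

omit [TopologicalSpace X] in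
lemma mem_F2 (p q : X × Bool) : (sg p * sg q : F X) ∈ Fn X 2 := by
  have h1 : (sg p * sg q : F X) = val [p, q] := by simp
  rw [h1]
  exact flength_val _

lemma trace_WF {P : ℕ → Set (F X)} (hP : SeqData (F X) 1 (Fn X 2) P) : Trace (WF P) := by
  refine ⟨fun m n hmn p hp => ⟨hP.anti m n hmn hp.1, hP.anti m n hmn hp.2.1,
    hP.anti m n hmn hp.2.2.1, hP.anti m n hmn hp.2.2.2⟩, ?_, ?_⟩
  · intro x y k hy
    have h1 : Tendsto (fun j => of (y j)) atTop (𝓝 (of x : F X)) :=
      (continuous_of.tendsto x).comp hy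
    have h0 : Tendsto (fun _ : ℕ => of x) atTop (𝓝 (of x : F X)) := tendsto_const_nhds
    have h2 : Tendsto (fun j => ((of x)⁻¹ * of (y j) : F X)) atTop (𝓝 1) := by
      have := h0.inv.mul h1
      rwa [inv_mul_cancel] at this
    have h3 : Tendsto (fun j => ((of (y j))⁻¹ * of x : F X)) atTop (𝓝 1) := by
      have := h1.inv.mul h0
      rwa [inv_mul_cancel] at this
    have h4 : Tendsto (fun j => (of x * (of (y j))⁻¹ : F X)) atTop (𝓝 1) := by
      have := h0.mul h1.inv
      rwa [mul_inv_cancel] at this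
    have h5 : Tendsto (fun j => (of (y j) * (of x)⁻¹ : F X)) atTop (𝓝 1) := by
      have := h1.mul h0.inv
      rwa [mul_inv_cancel] at this
    filter_upwards [hP.seq k _ (fun j => mem_F2 (x, false) (y j, true)) h2,
      hP.seq k _ (fun j => mem_F2 (y j, false) (x, true)) h3,
      hP.seq k _ (fun j => mem_F2 (x, true) (y j, false)) h4,
      hP.seq k _ (fun j => mem_F2 (y j, true) (x, false)) h5] with j hj1 hj2 hj3 hj4
    exact ⟨hj1, hj2, hj3, hj4⟩
  · intro f hf ε hε
    let f' : X → Multiplicative (BoundedContinuousFunction ℕ ℝ) := fun x => Multiplicative.ofAdd (f x)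
    have hf' : Continuous f' := continuous_ofAdd.comp hf
    obtain ⟨k, hk⟩ := hP.net ((fun g => Multiplicative.toAdd (liftF f' g)) ⁻¹' (Metric.ball 0 ε))
      (Metric.isOpen_ball.preimage (continuous_toAdd.comp (continuous_liftF hf'))) (by
        rw [mem_preimage, map_one]
        exact Metric.mem_ball_self hε)
    refine ⟨k, fun x y hxy => ?_⟩
    have h1 := hk hxy.2.1
    rw [mem_preimage, map_mul, map_inv, liftF_of, liftF_of, Metric.mem_ball,
      dist_zero_right] at h1
    rw [dist_eq_norm]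
    have h2 : Multiplicative.toAdd ((f' y)⁻¹ * f' x) = f x - f y := by
      simp only [f', toAdd_mul, toAdd_inv, toAdd_ofAdd]
      abel
    rwa [h2] at h1

/-! ### Words close to each other -/

lemma LRel.sg_mem {P : ℕ → Set (F X)} {S : Set (F X)} (hP : SeqData (F X) 1 S P) (p : X × Bool)
    {U : Set (F X)} (hU : U ∈ 𝓝 (sg p)) : ∃ k, ∀ q, LRel (WF P k) p q → sg q ∈ U := by
  obtain ⟨V, hVU, hV, hpV⟩ := mem_nhds_iff.1 hU
  obtain ⟨k, hk⟩ := hP.net ((fun g => sg p * g) ⁻¹' V) (hV.preimage (by fun_prop)) (by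
    rw [mem_preimage, mul_one]
    exact hpV)
  refine ⟨k, ?_⟩
  rintro ⟨y, b'⟩ ⟨h1, h2⟩
  obtain ⟨x, b⟩ := p
  simp only at h1 h2
  subst h1
  apply hVU
  cases b
  · have h3 := hk h2.2.2.1
    rw [mem_preimage] at h3
    simpa [sg] using h3
  · have h3 := hk h2.1
    rw [mem_preimage] at h3
    simpa [sg] using h3

lemma WF_anti {P : ℕ → Set (F X)} {S : Set (F X)} (hP : SeqData (F X) 1 S P) {m n : ℕ}
    (hmn : m ≤ n) {p q : X × Bool} (h : LRel (WF P n) p q) : LRel (WF P m) p q :=
  ⟨h.1, hP.anti m n hmn h.2.1, hP.anti m n hmn h.2.2.1, hP.anti m n hmn h.2.2.2.1,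
    hP.anti m n hmn h.2.2.2.2⟩

lemma val_mem {P : ℕ → Set (F X)} {S : Set (F X)} (hP : SeqData (F X) 1 S P)
    (M : List (X × Bool)) : ∀ U : Set (F X), U ∈ 𝓝 (val M) →
      ∃ k, ∀ L, List.Forall₂ (LRel (WF P k)) M L → val L ∈ U := by
  induction M with
  | nil =>
    intro U hU
    refine ⟨0, fun L hL => ?_⟩
    rw [List.forall₂_nil_left_iff] at hL
    rw [hL]
    exact mem_of_mem_nhds hU
  | cons p M ih =>
    intro U hU
    rw [val_cons] at hU
    have h1 : (fun z : F X × F X => z.1 * z.2) ⁻¹' U ∈ 𝓝 (sg p, val M) :=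
      continuous_mul.continuousAt.preimage_mem_nhds hU
    obtain ⟨U1, hU1, U2, hU2, hUU⟩ := mem_nhds_prod_iff.1 h1
    obtain ⟨k1, hk1⟩ := LRel.sg_mem hP p hU1
    obtain ⟨k2, hk2⟩ := ih U2 hU2
    refine ⟨max k1 k2, fun L hL => ?_⟩
    rw [List.forall₂_cons_left_iff] at hL
    obtain ⟨q, L', hq, hL', rfl⟩ := hL
    rw [val_cons]
    have h2 : (sg q, val L') ∈ U1 ×ˢ U2 :=
      ⟨hk1 q (WF_anti hP (le_max_left _ _) hq),
        hk2 L' (hL'.imp fun _ _ h => WF_anti hP (le_max_right _ _) h)⟩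
    exact hUU h2

/-- Two letters which are close to letters which cancel. -/
lemma pair_mem {P : ℕ → Set (F X)} {S : Set (F X)} (hP : SeqData (F X) 1 S P)
    {U : Set (F X)} (hU : U ∈ 𝓝 (1 : F X)) : ∃ k, ∀ z b q r, LRel (WF P k) (z, b) q →
      LRel (WF P k) (z, !b) r → sg q * sg r ∈ U := by
  obtain ⟨V, hV, hV1, hVU⟩ := exists_open_nhds_one_mul_subset hU
  obtain ⟨k, hk⟩ := hP.net V hV hV1
  refine ⟨k, ?_⟩
  rintro z b ⟨y, b'⟩ ⟨w, b''⟩ ⟨h1, h2⟩ ⟨h3, h4⟩
  simp only at h1 h2 h3 h4
  subst h1 h3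
  apply hVU
  cases b
  · refine ⟨(of y)⁻¹ * of z, hk h2.2.1, (of z)⁻¹ * of w, hk h4.1, ?_⟩
    simp [sg, mul_assoc]
  · refine ⟨of y * (of z)⁻¹, hk h2.2.2.2, of z * (of w)⁻¹, hk h4.2.2.1, ?_⟩
    simp [sg, mul_assoc]

lemma tendsto_val_of_LConv {L : ℕ → List (X × Bool)} {M : List (X × Bool)}
    (h : LConv L M) : Tendsto (fun j => val (L j)) atTop (𝓝 (val M)) := by
  induction h with
  | nil => exact tendsto_const_nhds
  | cons x a b L M hx _ ih =>
    simp only [val_cons]
    refine Tendsto.mul ?_ ih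
    have h1 : Tendsto (fun j => of (x j)) atTop (𝓝 (of a)) :=
      (continuous_of.tendsto a).comp hx
    cases b
    · exact h1.inv
    · exact h1

/-- The sequential neighbourhoods of the points of `F_3(X)`. -/
def RF (W : ℕ → Set (X × X)) (g : F X) (k : ℕ) : Set (F X) :=
  {h | ∃ M L : List (X × Bool), M.length ≤ 3 ∧ List.Forall₂ (LRel (W k)) M L ∧ val M = g ∧
    val L = h}

omit [TopologicalSpace X] in
/-- The words of length at most three. -/
lemma word_cases (M : List (X × Bool)) (hM : M.length ≤ 3) : FreeGroup.IsReduced M ∨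
    (∃ z b, M = [(z, b), (z, !b)]) ∨ (∃ z b p, M = [(z, b), (z, !b), p]) ∨
      ∃ z b p, M = [p, (z, b), (z, !b)] := by
  have key : ∀ p q : X × Bool, ¬ (p.1 = q.1 → p.2 = q.2) → q = (p.1, !p.2) := by
    rintro ⟨x, b⟩ ⟨y, c⟩ h
    push Not at h
    obtain ⟨h1, h2⟩ := h
    simp only at h1 h2
    subst h1
    cases b <;> cases c <;> simp_all
  rcases M with _ | ⟨p, _ | ⟨q, _ | ⟨r, _ | ⟨s, M⟩⟩⟩⟩
  · left
    simp [FreeGroup.IsReduced]
  · left
    simp [FreeGroup.IsReduced]
  · by_cases h : p.1 = q.1 → p.2 = q.2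
    · left
      simpa [FreeGroup.IsReduced] using h
    · right
      left
      exact ⟨p.1, p.2, by rw [key p q h]⟩
  · by_cases h : p.1 = q.1 → p.2 = q.2
    · by_cases h' : q.1 = r.1 → q.2 = r.2
      · left
        simp only [FreeGroup.IsReduced, List.isChain_cons_cons, List.isChain_singleton, and_true]
        exact ⟨h, h'⟩
      · right
        right
        right
        exact ⟨q.1, q.2, p, by rw [key q r h']⟩
    · right
      right
      left
      exact ⟨p.1, p.2, r, by rw [key p q h]⟩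
  · simp only [List.length_cons] at hM
    omega

omit [TopologicalSpace X] in
lemma val_cancel (z : X) (b : Bool) : (sg (z, b) * sg (z, !b) : F X) = 1 := by
  cases b <;> simp [sg]

omit [TopologicalSpace X] in
lemma reduced_unique {M M' : List (X × Bool)} (hM : FreeGroup.IsReduced M)
    (hM' : FreeGroup.IsReduced M') (h : (val M : F X) = val M') : M = M' := by
  classical
  rw [val_eq_mk, val_eq_mk] at h
  have h1 := congrArg FreeGroup.toWord h
  rw [FreeGroup.toWord_mk, FreeGroup.toWord_mk, hM.reduce_eq, hM'.reduce_eq] at h1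
  exact h1

lemma RF_network {P : ℕ → Set (F X)} {S : Set (F X)} (hP : SeqData (F X) 1 S P) (g : F X)
    (U : Set (F X)) (hU : IsOpen U) (hg : g ∈ U) : ∃ k, RF (WF P) g k ⊆ U := by
  obtain ⟨M0, -, hM0, hred⟩ := exists_word_F g
  -- neighbourhoods
  have h1 : (fun z : F X × F X => z.1 * z.2) ⁻¹' U ∈ 𝓝 ((1 : F X), g) :=
    continuous_mul.continuousAt.preimage_mem_nhds (by simpa using hU.mem_nhds hg)
  have h2 : (fun z : F X × F X => z.1 * z.2) ⁻¹' U ∈ 𝓝 (g, (1 : F X)) :=
    continuous_mul.continuousAt.preimage_mem_nhds (by simpa using hU.mem_nhds hg)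
  obtain ⟨A1, hA1, B1, hB1, hAB1⟩ := mem_nhds_prod_iff.1 h1
  obtain ⟨B2, hB2, A2, hA2, hAB2⟩ := mem_nhds_prod_iff.1 h2
  obtain ⟨k1, hk1⟩ := val_mem hP M0 U (by rw [hM0]; exact hU.mem_nhds hg)
  obtain ⟨k2, hk2⟩ := val_mem hP M0 (B1 ∩ B2) (by rw [hM0]; exact Filter.inter_mem hB1 hB2)
  obtain ⟨k3, hk3⟩ := pair_mem hP (Filter.inter_mem hA1 hA2)
  refine ⟨max k1 (max k2 k3), ?_⟩
  rintro h ⟨M, L, hM, hML, hMg, rfl⟩
  have hk2' : k2 ≤ max k1 (max k2 k3) := (le_max_left _ _).trans (le_max_right _ _)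
  have hk3' : k3 ≤ max k1 (max k2 k3) := (le_max_right _ _).trans (le_max_right _ _)
  rcases word_cases M hM with hr | ⟨z, b, rfl⟩ | ⟨z, b, p, rfl⟩ | ⟨z, b, p, rfl⟩
  · have h3 : M = M0 := reduced_unique hr hred (hMg.trans hM0.symm)
    subst h3
    exact hk1 L (hML.imp fun _ _ h => WF_anti hP (le_max_left _ _) h)
  · have h3 : g = 1 := by
      rw [← hMg]
      simp [val_cancel]
    rw [List.forall₂_cons_left_iff] at hML
    obtain ⟨q, L', hq, hL', rfl⟩ := hML
    rw [List.forall₂_cons_left_iff] at hL'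
    obtain ⟨r, L'', hr, hL'', rfl⟩ := hL'
    rw [List.forall₂_nil_left_iff] at hL''
    subst hL''
    have h4 := hk3 z b q r (WF_anti hP hk3' hq) (WF_anti hP hk3' hr)
    have h5 : (sg q * sg r, g) ∈ A1 ×ˢ B1 := ⟨h4.1, mem_of_mem_nhds hB1⟩
    have h6 := hAB1 h5
    rw [mem_preimage, h3] at h6
    simpa [mul_assoc] using h6
  · have hr : FreeGroup.IsReduced [p] := by simp [FreeGroup.IsReduced]
    have h3 : [p] = M0 := reduced_unique hr hred (by
      rw [hM0, ← hMg]
      simp [← mul_assoc, val_cancel])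
    rw [List.forall₂_cons_left_iff] at hML
    obtain ⟨q, L', hq, hL', rfl⟩ := hML
    rw [List.forall₂_cons_left_iff] at hL'
    obtain ⟨r, L'', hr, hL'', rfl⟩ := hL'
    have h4 := hk3 z b q r (WF_anti hP hk3' hq) (WF_anti hP hk3' hr)
    have h5 := hk2 L'' (by
      rw [← h3]
      exact hL''.imp fun _ _ h => WF_anti hP hk2' h)
    have h6 : (sg q * sg r, val L'') ∈ A1 ×ˢ B1 := ⟨h4.1, h5.1⟩
    have h7 := hAB1 h6
    simpa [mul_assoc] using h7
  · have hr : FreeGroup.IsReduced [p] := by simp [FreeGroup.IsReduced]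
    have h3 : [p] = M0 := reduced_unique hr hred (by
      rw [hM0, ← hMg]
      simp [val_cancel])
    rw [List.forall₂_cons_left_iff] at hML
    obtain ⟨q, L', hq, hL', rfl⟩ := hML
    rw [List.forall₂_cons_left_iff] at hL'
    obtain ⟨r, L'', hr, hL'', rfl⟩ := hL'
    rw [List.forall₂_cons_left_iff] at hL''
    obtain ⟨t, L3, ht, hL3, rfl⟩ := hL''
    rw [List.forall₂_nil_left_iff] at hL3
    subst hL3
    have h4 := hk3 z b r t (WF_anti hP hk3' hr) (WF_anti hP hk3' ht)
    have h5 := hk2 [q] (by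
      rw [← h3]
      exact List.Forall₂.cons (WF_anti hP hk2' hq) List.Forall₂.nil)
    have h6 : (val [q], sg r * sg t) ∈ B2 ×ˢ A2 := ⟨h5.2, h4.2⟩
    have h7 := hAB2 h6
    simpa [mul_assoc] using h7

/-! ### Discrete letters -/

/-- The free group on `Option ℕ` with the discrete topology. -/
def DF : Type := FreeGroup (Option ℕ)

instance : Group DF := inferInstanceAs (Group (FreeGroup (Option ℕ)))
instance : TopologicalSpace DF := ⊥
instance : DiscreteTopology DF := ⟨rfl⟩

/-- The exponent sum of a generator. -/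
def eHom (j : ℕ) : FreeGroup (Option ℕ) →* Multiplicative ℤ :=
  FreeGroup.lift fun c => if c = some j then Multiplicative.ofAdd (1 : ℤ) else 1

/-- The homomorphism which kills a generator. -/
def kHom (j : ℕ) : FreeGroup (Option ℕ) →* FreeGroup (Option ℕ) :=
  FreeGroup.lift fun c => if c = some j then 1 else FreeGroup.of c

/-- A homomorphism to the symmetric group on three letters. -/
def pHom (j : ℕ) : FreeGroup (Option ℕ) →* Equiv.Perm (Fin 3) :=
  FreeGroup.lift fun c => if c = some j then Equiv.swap 0 1 else Equiv.swap 1 2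

lemma eventually_fixed (γ : FreeGroup (Option ℕ)) :
    ∀ᶠ j in atTop, eHom j γ = 1 ∧ kHom j γ = γ := by
  induction γ using FreeGroup.induction_on with
  | C1 => exact Eventually.of_forall fun j => ⟨map_one _, map_one _⟩
  | of c =>
    have : ∀ᶠ j : ℕ in atTop, c ≠ some j := by
      rcases c with _ | i
      · exact Eventually.of_forall fun j => by simp
      · filter_upwards [eventually_gt_atTop i] with j hj h
        injection h with h
        omega
    filter_upwards [this] with j hj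
    constructor
    · simp [eHom, hj]
    · simp [kHom, hj]
  | inv_of c ih =>
    filter_upwards [ih] with j hj
    rw [map_inv, map_inv, hj.1, hj.2]
    exact ⟨inv_one, rfl⟩
  | mul x y hx hy =>
    filter_upwards [hx, hy] with j hj1 hj2
    rw [map_mul, map_mul, hj1.1, hj1.2, hj2.1, hj2.2]
    exact ⟨one_mul _, rfl⟩

omit [TopologicalSpace X] in
lemma comb (ψ : X → Option ℕ) (j : ℕ) (x : X) (hψ : ∀ y, ψ y = some j ↔ y = x)
    (L : List (X × Bool)) (hL : L.length ≤ 3) (hr : FreeGroup.IsReduced L)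
    (hx : ∃ b, (x, b) ∈ L)
    (he : eHom j (liftF (fun y => FreeGroup.of (ψ y)) (val L)) = 1)
    (hk : kHom j (liftF (fun y => FreeGroup.of (ψ y)) (val L)) =
      liftF (fun y => FreeGroup.of (ψ y)) (val L)) : False := by
  classical
  -- the exponent sum
  let E : F X →* Multiplicative ℤ := (eHom j).comp (liftF fun y => FreeGroup.of (ψ y))
  have hE : ∀ p : X × Bool, E (sg p) =
      if p.1 = x then Multiplicative.ofAdd (if p.2 then (1 : ℤ) else -1) else 1 := by
    rintro ⟨y, b⟩
    have h1 : E (of y) = if y = x then Multiplicative.ofAdd (1 : ℤ) else 1 := by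
      change eHom j (liftF (fun y => FreeGroup.of (ψ y)) (of y)) = _
      rw [liftF_of, eHom, FreeGroup.lift_apply_of]
      by_cases h : y = x
      · rw [if_pos ((hψ y).2 h), if_pos h]
      · rw [if_neg (fun h' => h ((hψ y).1 h')), if_neg h]
    cases b
    · change E (of y)⁻¹ = _
      rw [map_inv, h1]
      by_cases h : y = x
      · simp [h]
      · simp [h]
    · change E (of y) = _
      rw [h1]
      simp
  -- the homomorphisms to the symmetric group
  let A : F X →* Equiv.Perm (Fin 3) := (pHom j).comp (liftF fun y => FreeGroup.of (ψ y))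
  let B : F X →* Equiv.Perm (Fin 3) :=
    ((pHom j).comp (kHom j)).comp (liftF fun y => FreeGroup.of (ψ y))
  have hA : ∀ p : X × Bool, A (sg p) = if p.1 = x then Equiv.swap 0 1 else Equiv.swap 1 2 := by
    rintro ⟨y, b⟩
    have h1 : A (of y) = if y = x then Equiv.swap 0 1 else Equiv.swap 1 2 := by
      change pHom j (liftF (fun y => FreeGroup.of (ψ y)) (of y)) = _
      rw [liftF_of, pHom, FreeGroup.lift_apply_of]
      by_cases h : y = x
      · rw [if_pos ((hψ y).2 h), if_pos h]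
      · rw [if_neg (fun h' => h ((hψ y).1 h')), if_neg h]
    cases b
    · change A (of y)⁻¹ = _
      rw [map_inv, h1]
      by_cases h : y = x
      · simp [h]
      · simp [h]
    · exact h1
  have hB : ∀ p : X × Bool, B (sg p) = if p.1 = x then 1 else Equiv.swap 1 2 := by
    rintro ⟨y, b⟩
    have h1 : B (of y) = if y = x then 1 else Equiv.swap 1 2 := by
      change pHom j (kHom j (liftF (fun y => FreeGroup.of (ψ y)) (of y))) = _
      rw [liftF_of, kHom, FreeGroup.lift_apply_of]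
      by_cases h : y = x
      · rw [if_pos ((hψ y).2 h), if_pos h, map_one]
      · rw [if_neg (fun h' => h ((hψ y).1 h')), if_neg h, pHom, FreeGroup.lift_apply_of,
          if_neg (fun h' => h ((hψ y).1 h'))]
    cases b
    · change B (of y)⁻¹ = _
      rw [map_inv, h1]
      by_cases h : y = x
      · simp [h]
      · simp [h]
    · exact h1
  have he' : E (val L) = 1 := he
  have hAB : A (val L) = B (val L) := (congrArg (pHom j) hk).symm
  have e1 : ∀ b : Bool, Multiplicative.ofAdd (if b then (1 : ℤ) else -1) ≠ 1 := by decide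
  have e2 : ∀ b : Bool, Multiplicative.ofAdd (if b then (1 : ℤ) else -1) *
      Multiplicative.ofAdd (if b then (1 : ℤ) else -1) ≠ 1 := by decide
  have e3 : ∀ b : Bool, Multiplicative.ofAdd (if b then (1 : ℤ) else -1) *
      (Multiplicative.ofAdd (if b then (1 : ℤ) else -1) *
        Multiplicative.ofAdd (if b then (1 : ℤ) else -1)) ≠ 1 := by decide
  rcases L with _ | ⟨p, _ | ⟨q, _ | ⟨r, _ | ⟨s, L⟩⟩⟩⟩
  · obtain ⟨b, hb⟩ := hx
    simp at hb
  · obtain ⟨b, hb⟩ := hx
    rw [List.mem_singleton] at hb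
    subst hb
    simp only [val_cons, val_nil, mul_one] at he'
    rw [hE, if_pos rfl] at he'
    exact e1 _ he'
  · simp only [val_cons, val_nil, mul_one, map_mul] at he'
    simp only [FreeGroup.IsReduced, List.isChain_cons_cons, List.isChain_singleton,
      and_true] at hr
    rw [hE, hE] at he'
    by_cases hp : p.1 = x <;> by_cases hq : q.1 = x
    · have h1 := hr (hp.trans hq.symm)
      rw [if_pos hp, if_pos hq, h1] at he'
      exact e2 _ he'
    · rw [if_pos hp, if_neg hq, mul_one] at he'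
      exact e1 _ he'
    · rw [if_neg hp, if_pos hq, one_mul] at he'
      exact e1 _ he'
    · obtain ⟨b, hb⟩ := hx
      simp only [List.mem_cons, List.not_mem_nil, or_false] at hb
      rcases hb with rfl | rfl
      · exact hp rfl
      · exact hq rfl
  · simp only [val_cons, val_nil, mul_one, map_mul] at he' hAB
    simp only [FreeGroup.IsReduced, List.isChain_cons_cons, List.isChain_singleton,
      and_true] at hr
    obtain ⟨hr1, hr2⟩ := hr
    rw [hE, hE, hE] at he'
    rw [hA, hA, hA, hB, hB, hB] at hAB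
    by_cases hp : p.1 = x <;> by_cases hq : q.1 = x <;> by_cases hr3 : r.1 = x
    · have h1 := hr1 (hp.trans hq.symm)
      have h2 := hr2 (hq.trans hr3.symm)
      rw [if_pos hp, if_pos hq, if_pos hr3, h1, h2] at he'
      exact e3 _ he'
    · have h1 := hr1 (hp.trans hq.symm)
      rw [if_pos hp, if_pos hq, if_neg hr3, h1, mul_one] at he'
      exact e2 _ he'
    · rw [if_pos hp, if_neg hq, if_pos hr3, if_pos hp, if_neg hq, if_pos hr3] at hAB
      revert hAB
      decide
    · rw [if_pos hp, if_neg hq, if_neg hr3, mul_one, mul_one] at he'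
      exact e1 _ he'
    · have h2 := hr2 (hq.trans hr3.symm)
      rw [if_neg hp, if_pos hq, if_pos hr3, h2, one_mul] at he'
      exact e2 _ he'
    · rw [if_neg hp, if_pos hq, if_neg hr3, one_mul, mul_one] at he'
      exact e1 _ he'
    · rw [if_neg hp, if_neg hq, if_pos hr3, one_mul, one_mul] at he'
      exact e1 _ he'
    · obtain ⟨b, hb⟩ := hx
      simp only [List.mem_cons, List.not_mem_nil, or_false] at hb
      rcases hb with rfl | rfl | rfl
      · exact hp rfl
      · exact hq rfl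
      · exact hr3 rfl
  · simp only [List.length_cons] at hL
    omega

lemma disc_false_F {s : ℕ → F X} {g : F X} (hs : Tendsto s atTop (𝓝 g)) {p : ℕ → X}
    (hp : DiscSeq p) (L : ℕ → List (X × Bool)) (hL : ∀ j, val (L j) = s j)
    (hlen : ∀ j, (L j).length ≤ 3) (hred : ∀ j, FreeGroup.IsReduced (L j))
    (hpL : ∀ j, ∃ b, (p j, b) ∈ L j) : False := by
  obtain ⟨ψ, hψ, hψp⟩ := hp.exists_map
  let q : X → DF := fun x => FreeGroup.of (ψ x)
  have hq : Continuous q := by
    rw [continuous_def]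
    intro V _
    exact hψ {c | (FreeGroup.of c : FreeGroup (Option ℕ)) ∈ V}
  have h1 : Tendsto (fun j => liftF q (s j)) atTop (𝓝 (liftF q g)) :=
    ((continuous_liftF hq).tendsto g).comp hs
  have h2 : ∀ᶠ j in atTop, liftF q (s j) = liftF q g :=
    h1.eventually ((isOpen_discrete {liftF q g}).mem_nhds rfl)
  obtain ⟨j, hj1, hj2, hj3⟩ := (h2.and (eventually_fixed (liftF q g))).exists
  rw [← hj1, ← hL j] at hj2 hj3
  exact comb ψ j (p j) (fun y => hψp y j) (L j) (hlen j) (hred j) (hpL j) hj2 hj3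

/-- **The main theorem for free topological groups.** -/
theorem snfCountable_F3 [T35Space X] (hk : IsKSpace X) (hd : HasRegularGDeltaDiagonal X) {N : ℕ}
    (hN : 2 ≤ N) (h : SnfCountable (Fn X N)) : SnfCountable (Fn X 3) := by
  obtain ⟨O, hO⟩ := exists_diagSeq hd
  have hseq : SequentialSpace X := sequentialSpace hk hO
  have h0 : (1 : F X) ∈ Fn X N := le_trans (flength_val ([] : List (X × Bool))) (Nat.zero_le _)
  obtain ⟨P, hP1, hP2, hP3⟩ := h.exists_seq h0
  have hP : SeqData (F X) 1 (Fn X 2) P :=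
    ⟨hP1, fun k s hs hs0 => hP2 k s (fun j => le_trans (hs j) hN) hs0, hP3⟩
  have hW : Trace (WF P) := trace_WF hP
  refine SnfCountable.of_seq (RF (WF P)) ?_ ?_ ?_
  · rintro g - m k hmk a ⟨M, L, hM, hML, hMg, hLa⟩
    refine ⟨M, L, hM, ?_, hMg, hLa⟩
    exact hML.imp fun p q hpq => ⟨hpq.1, hW.anti m k hmk hpq.2⟩
  · intro g _ k s hs hsg
    by_contra hcon
    rw [not_eventually] at hcon
    obtain ⟨φ, hφ, hφR⟩ := extraction_of_frequently_atTop hcon
    choose L hL1 hL2 hL3 using fun j => exists_word_F (s (φ j))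
    have hlen : ∀ j, (L j).length ≤ 3 := fun j => (hL1 j).le.trans (hs (φ j))
    obtain ⟨ψ, hψ, ⟨M, hM⟩ | ⟨p, hp, hpL⟩⟩ := extract (fun v => dichotomy hW hO v) 3 L hlen
    · have h1 : Tendsto (fun j => val ((L ∘ ψ) j)) atTop (𝓝 (val M)) :=
        tendsto_val_of_LConv hM
      have h2 : Tendsto (fun j => val ((L ∘ ψ) j)) atTop (𝓝 g) := by
        have : (fun j => val ((L ∘ ψ) j)) = s ∘ (φ ∘ ψ) := funext fun j => hL2 (ψ j)
        rw [this]
        exact hsg.comp (hφ.comp hψ).tendsto_atTop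
      have h3 : val M = g := tendsto_nhds_unique h1 h2
      obtain ⟨j, hj⟩ := (hM.eventually_rel hW.seq k).exists
      apply hφR (ψ j)
      refine ⟨M, L (ψ j), ?_, hj, h3, hL2 (ψ j)⟩
      rw [← hM.length j]
      exact hlen (ψ j)
    · exact disc_false_F (s := s ∘ (φ ∘ ψ)) (hsg.comp (hφ.comp hψ).tendsto_atTop) hp
        (L ∘ ψ) (fun j => hL2 (ψ j)) (fun j => hlen (ψ j)) (fun j => hL3 (ψ j)) hpL
  · intro g _ U hU hgU
    obtain ⟨k, hk⟩ := RF_network hP g U hU hgU
    exact ⟨k, inter_subset_left.trans hk⟩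

end Q178.Snf
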