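import Pool.Agent.Q178.Snf.Abel

set_option autoImplicit false

/-!
Free topological groups are Hausdorff (the method of Hartman and Mycielski).
-/

universe u

namespace Q178.Snf

open Set Filter Topology MeasureTheory ENNReal

/-- The group of all maps from the real line to `G`. -/
def HM (G : Type u) : Type u := ℝ → G

variable {G : Type u} [Group G]

instance : Group (HM G) := inferInstanceAs (Group (ℝ → G))

/-- The measure of the set where the function is different from `1`. -/
noncomputable def nm (f : HM G) : ℝ≥0∞ := volume {t : ℝ | t ∈ Icc (0 : ℝ) 1 ∧ f t ≠ 1}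

lemma nm_one : nm (1 : HM G) = 0 := by
  have : {t : ℝ | t ∈ Icc (0 : ℝ) 1 ∧ (1 : HM G) t ≠ 1} = ∅ := by
    ext t
    simp only [mem_ofPred_eq, mem_empty_iff_false, iff_false, not_and, not_not]
    exact fun _ => rfl
  rw [nm, this, measure_empty]

lemma nm_mul (f g : HM G) : nm (f * g) ≤ nm f + nm g := by
  refine (measure_mono ?_).trans (measure_union_le _ _)
  rintro t ⟨ht, h⟩
  by_cases hf : f t = 1
  · right
    refine ⟨ht, fun hg => h ?_⟩
    change f t * g t = 1
    rw [hf, hg, one_mul]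
  · left
    exact ⟨ht, hf⟩

lemma nm_inv (f : HM G) : nm f⁻¹ = nm f := by
  have : {t : ℝ | t ∈ Icc (0 : ℝ) 1 ∧ f⁻¹ t ≠ 1} = {t : ℝ | t ∈ Icc (0 : ℝ) 1 ∧ f t ≠ 1} := by
    ext t
    have : f⁻¹ t = (f t)⁻¹ := rfl
    simp [this]
  rw [nm, this, nm]

lemma nm_conj (x f : HM G) : nm (x * f * x⁻¹) = nm f := by
  have : {t : ℝ | t ∈ Icc (0 : ℝ) 1 ∧ (x * f * x⁻¹) t ≠ 1} =
      {t : ℝ | t ∈ Icc (0 : ℝ) 1 ∧ f t ≠ 1} := by
    ext t
    have : (x * f * x⁻¹) t = x t * f t * (x t)⁻¹ := rfl
    simp only [mem_ofPred_eq, this]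
    rw [ne_eq, conj_eq_one_iff]
  rw [nm, this, nm]

/-- The filter basis of the neighbourhoods of `1`. -/
@[instance_reducible]
noncomputable def hmBasis : GroupFilterBasis (HM G) where
  sets := {U | ∃ ε : ℝ≥0∞, 0 < ε ∧ U = {f | nm f < ε}}
  nonempty := ⟨_, 1, one_pos, rfl⟩
  inter_sets := by
    rintro _ _ ⟨ε, hε, rfl⟩ ⟨δ, hδ, rfl⟩
    exact ⟨_, ⟨min ε δ, lt_min hε hδ, rfl⟩, fun f (hf : nm f < min ε δ) =>
      ⟨(lt_min_iff.1 hf).1, (lt_min_iff.1 hf).2⟩⟩
  one' := by
    rintro _ ⟨ε, hε, rfl⟩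
    change nm (1 : HM G) < ε
    rw [nm_one]
    exact hε
  mul' := by
    rintro _ ⟨ε, hε, rfl⟩
    refine ⟨_, ⟨ε / 2, ENNReal.half_pos hε.ne', rfl⟩, ?_⟩
    rintro _ ⟨f, hf, g, hg, rfl⟩
    refine (nm_mul f g).trans_lt ?_
    rw [← ENNReal.add_halves ε]
    exact ENNReal.add_lt_add hf hg
  inv' := by
    rintro _ ⟨ε, hε, rfl⟩
    refine ⟨_, ⟨ε, hε, rfl⟩, fun f hf => ?_⟩
    change nm f⁻¹ < ε
    rw [nm_inv]
    exact hf
  conj' := by
    rintro x _ ⟨ε, hε, rfl⟩
    refine ⟨_, ⟨ε, hε, rfl⟩, fun f hf => ?_⟩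
    change nm (x * f * x⁻¹) < ε
    rw [nm_conj]
    exact hf

noncomputable instance : TopologicalSpace (HM G) := hmBasis.topology

instance : IsTopologicalGroup (HM G) := hmBasis.isTopologicalGroup

lemma mem_nhds_one_HM {ε : ℝ≥0∞} (hε : 0 < ε) : {f : HM G | nm f < ε} ∈ 𝓝 (1 : HM G) :=
  hmBasis.mem_nhds_one ⟨ε, hε, rfl⟩

variable {X : Type u} [TopologicalSpace X]

/-- The path from `1` to `g` composed with a function. -/
noncomputable def hmMap (f : X → ℝ) (g : G) (x : X) : HM G :=
  fun t => by classical exact if t < f x then g else 1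

lemma continuous_hmMap {f : X → ℝ} (hf : Continuous f) (g : G) : Continuous (hmMap f g) := by
  rw [continuous_iff_continuousAt]
  intro x
  rw [ContinuousAt, (hmBasis.nhds_hasBasis (hmMap f g x)).tendsto_right_iff]
  rintro _ ⟨ε, hε, rfl⟩
  have h1 : Tendsto (fun y => ENNReal.ofReal |f x - f y|) (𝓝 x) (𝓝 0) := by
    have h2 : Continuous fun y => ENNReal.ofReal |f x - f y| :=
      ENNReal.continuous_ofReal.comp (by fun_prop)
    have h3 := h2.tendsto x
    simpa using h3
  filter_upwards [h1.eventually_lt_const hε] with y hy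
  refine ⟨(hmMap f g x)⁻¹ * hmMap f g y, ?_, by simp⟩
  change nm _ < ε
  refine lt_of_le_of_lt ?_ hy
  have h4 : {t : ℝ | t ∈ Icc (0 : ℝ) 1 ∧ ((hmMap f g x)⁻¹ * hmMap f g y) t ≠ 1} ⊆
      uIcc (f x) (f y) := by
    rintro t ⟨-, ht⟩
    by_contra hn
    apply ht
    change (hmMap f g x t)⁻¹ * hmMap f g y t = 1
    rw [mem_uIcc, not_or] at hn
    unfold hmMap
    by_cases h5 : t < f x <;> by_cases h6 : t < f y
    · simp [h5, h6]
    · exact absurd ⟨not_lt.1 h6, h5.le⟩ hn.2
    · exact absurd ⟨not_lt.1 h5, h6.le⟩ hn.1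
    · simp [h5, h6]
  refine (measure_mono h4).trans ?_
  rw [Real.volume_interval, abs_sub_comm]

/-! ### Words in `F(X)` -/

omit [TopologicalSpace X] in
lemma prod_single {l : List X} (hl : l.Nodup) {x : X} (hx : x ∈ l) (h : X → G) (g : G)
    (h1 : h x = g) (h2 : ∀ y ∈ l, y ≠ x → h y = 1) : (l.map h).prod = g := by
  induction l with
  | nil => simp at hx
  | cons a l ih =>
    rw [List.map_cons, List.prod_cons]
    rw [List.nodup_cons] at hl
    rcases List.mem_cons.1 hx with rfl | hx'
    · have h3 : (l.map h).prod = 1 := by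
        apply List.prod_eq_one
        intro y hy
        obtain ⟨z, hz, rfl⟩ := List.mem_map.1 hy
        exact h2 z (List.mem_cons_of_mem _ hz) fun h => hl.1 (h ▸ hz)
      rw [h3, mul_one, h1]
    · have h3 : a ≠ x := fun h => hl.1 (h ▸ hx')
      rw [h2 a List.mem_cons_self h3, one_mul]
      exact ih hl.2 hx' fun y hy hyx => h2 y (List.mem_cons_of_mem _ hy) hyx

/-- A generator with a sign. -/
def sg (p : X × Bool) : F X := cond p.2 (of p.1) (of p.1)⁻¹

/-- The value of a word. -/
def val (L : List (X × Bool)) : F X := (L.map sg).prod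

omit [TopologicalSpace X] in
@[simp] lemma val_nil : val ([] : List (X × Bool)) = 1 := rfl

omit [TopologicalSpace X] in
@[simp] lemma val_cons (p : X × Bool) (L : List (X × Bool)) :
    val (p :: L) = sg p * val L := by simp [val]

omit [TopologicalSpace X] in
lemma val_eq_mk (L : List (X × Bool)) : val L = (FreeGroup.mk L : FreeGroup X) := by
  have h1 := FreeGroup.lift_of_apply (FreeGroup.mk L)
  rw [FreeGroup.lift_mk] at h1
  exact h1

omit [TopologicalSpace X] in
lemma liftF_val {H : Type*} [Group H] (f : X → H) (L : List (X × Bool)) :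
    liftF f (val L) = (L.map fun p => cond p.2 (f p.1) (f p.1)⁻¹).prod := by
  rw [val_eq_mk]
  exact FreeGroup.lift_mk

omit [TopologicalSpace X] in
lemma exists_word_F (g : F X) : ∃ L : List (X × Bool), L.length = flength g ∧ val L = g ∧
    FreeGroup.IsReduced L := by
  classical
  refine ⟨FreeGroup.toWord (g : FreeGroup X), ?_, ?_, FreeGroup.isReduced_toWord⟩
  · unfold flength
    congr
  · rw [val_eq_mk]
    exact FreeGroup.mk_toWord

omit [TopologicalSpace X] in
lemma flength_val (L : List (X × Bool)) : flength (val L) ≤ L.length := by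
  classical
  rw [val_eq_mk]
  have h1 : flength (FreeGroup.mk L : FreeGroup X) = (FreeGroup.toWord (FreeGroup.mk L)).length := by
    unfold flength
    congr
  rw [h1]
  exact FreeGroup.norm_mk_le

instance [T35Space X] : T2Space (F X) := by
  apply IsTopologicalGroup.t2Space_of_one_sep
  intro w hw
  classical
  obtain ⟨L, -, hL, -⟩ := exists_word_F w
  let S : Finset X := (L.map Prod.fst).toFinset
  choose f hf hf1 hf0 hfr using fun s : X => exists_separating s (S.erase s) (by simp)
  -- the map to the group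
  let Ψ : X → HM (F X) := fun x => (S.toList.map fun s => hmMap (f s) (of s) x).prod
  have hΨ : Continuous Ψ := by
    apply continuous_list_prod
    intro s _
    exact continuous_hmMap (hf s) (of s)
  have hΨx : ∀ x ∈ S, ∀ t ∈ Ico (0 : ℝ) 1, Ψ x t = of x := by
    intro x hx t ht
    have h1 : ∀ l : List X, (l.map fun s => hmMap (f s) (of s : F X) x).prod t =
        (l.map fun s => hmMap (f s) (of s : F X) x t).prod := by
      intro l
      induction l with
      | nil => rfl
      | cons a l ih =>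
        rw [List.map_cons, List.prod_cons, List.map_cons, List.prod_cons, ← ih]
        rfl
    refine (h1 _).trans ?_
    refine prod_single S.nodup_toList (Finset.mem_toList.2 hx) _ _ ?_ ?_
    · change (if t < f x x then of x else 1) = of x
      rw [hf1, if_pos ht.2]
    · intro y hy hyx
      change (if t < f y x then of y else 1) = 1
      rw [hf0 y x (Finset.mem_erase.2 ⟨hyx.symm, hx⟩), if_neg (not_lt.2 ht.1)]
  have hw1 : ∀ t ∈ Ico (0 : ℝ) 1, liftF Ψ w t = w := by
    intro t ht
    rw [← hL, liftF_val]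
    have h1 : ∀ M : List (X × Bool), (∀ p ∈ M, p.1 ∈ S) →
        (M.map fun p => cond p.2 (Ψ p.1) (Ψ p.1)⁻¹).prod t = val M := by
      intro M
      induction M with
      | nil => intro _; rfl
      | cons p M ih =>
        intro hM
        rw [List.map_cons, List.prod_cons, val_cons,
          ← ih fun q hq => hM q (List.mem_cons_of_mem _ hq)]
        have h2 := hΨx p.1 (hM p List.mem_cons_self) t ht
        have h3 : (cond p.2 (Ψ p.1) (Ψ p.1)⁻¹) t = sg p := by
          unfold sg
          cases p.2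
          · change (Ψ p.1 t)⁻¹ = (of p.1)⁻¹
            rw [h2]
          · exact h2
        rw [← h3]
        rfl
    apply h1
    intro p hp
    rw [List.mem_toFinset]
    exact List.mem_map_of_mem hp
  refine ⟨liftF Ψ ⁻¹' {f | nm f < 1},
    (continuous_liftF hΨ).continuousAt.preimage_mem_nhds ?_, ?_⟩
  · rw [map_one]
    exact mem_nhds_one_HM one_pos
  · intro h
    have h1 : nm (liftF Ψ w) < 1 := h
    have h2 : (1 : ℝ≥0∞) ≤ nm (liftF Ψ w) := by
      have h3 : volume (Ico (0 : ℝ) 1) = 1 := by simp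
      rw [← h3]
      apply measure_mono
      intro t ht
      refine ⟨Ico_subset_Icc_self ht, ?_⟩
      rw [hw1 t ht]
      exact hw
    exact absurd h1 (not_lt.2 h2)

end Q178.Snf
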