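import Pool.Agent.Q178.Snf.Defs

set_option autoImplicit false

/-!
Sequences in `k`-spaces with a regular `G_δ`-diagonal.
-/

universe u

namespace Q178.Snf

open Set Filter Topology

variable {X : Type u} [TopologicalSpace X]

/-! ### `k`-spaces with a regular `G_δ`-diagonal are sequential -/

/-- A decreasing sequence of open neighbourhoods of the diagonal. -/
def DiagSeq (O : ℕ → Set (X × X)) : Prop :=
  (∀ m, IsOpen (O m)) ∧ (∀ m x, (x, x) ∈ O m) ∧ (∀ m n, m ≤ n → O n ⊆ O m) ∧
    ∀ x y, (∀ m, (x, y) ∈ closure (O m)) → x = y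

lemma exists_diagSeq (h : HasRegularGDeltaDiagonal X) : ∃ O : ℕ → Set (X × X), DiagSeq O := by
  obtain ⟨U, hU, h1, h2⟩ := h
  have hmem : ∀ m x, (x, x) ∈ U m := by
    intro m x
    have : (x, x) ∈ diagonal X := rfl
    rw [h1] at this
    exact mem_iInter.1 this m
  refine ⟨fun m => ⋂ i ∈ Finset.range (m + 1), U i, fun m => ?_, fun m x => ?_, ?_, ?_⟩
  · exact isOpen_biInter_finset fun i _ => hU i
  · simp only [mem_iInter]
    exact fun i _ => hmem i x
  · intro m n hmn
    apply biInter_subset_biInter_left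
    intro i hi
    simp only [Finset.coe_range, mem_Iio] at hi ⊢
    have : i < m + 1 := hi
    exact this.trans_le (by omega)
  · intro x y hxy
    have : (x, y) ∈ diagonal X := by
      rw [h2]
      refine mem_iInter.2 fun m => ?_
      refine closure_mono ?_ (hxy m)
      exact biInter_subset_of_mem (by simp)
    exact this

lemma mem_closure_of_seq {O : ℕ → Set (X × X)} (hO : DiagSeq O) {a b : ℕ → X} {p q : X}
    {φ : ℕ → ℕ} (hφ : Tendsto φ atTop atTop) (h : ∀ i, (a i, b i) ∈ O (φ i))
    (ha : MapClusterPt (p, q) atTop fun i => (a i, b i)) : p = q := by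
  apply hO.2.2.2
  intro m
  rw [mem_closure_iff_nhds]
  intro N hN
  have h1 := (ha.frequently hN).and_eventually (hφ.eventually_ge_atTop m)
  obtain ⟨i, hi, him⟩ := h1.exists
  exact ⟨(a i, b i), hi, hO.2.2.1 m _ him (h i)⟩

lemma sequentialSpace [T2Space X] (hk : IsKSpace X) {O : ℕ → Set (X × X)} (hO : DiagSeq O) :
    SequentialSpace X := by
  refine ⟨fun C hC => hk C fun K hK => ?_⟩
  apply isClosed_of_closure_subset
  intro x hx
  have h1 : ∀ m, ∃ y : K, (y : X) ∈ C ∧ ((x : X), (y : X)) ∈ O m := by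
    intro m
    have h2 : {y : K | ((x : X), (y : X)) ∈ O m} ∈ 𝓝 x := by
      apply IsOpen.mem_nhds
      · exact (hO.1 m).preimage (by fun_prop : Continuous fun y : K => ((x : X), (y : X)))
      · exact hO.2.1 m x
    obtain ⟨y, hy1, hy2⟩ := mem_closure_iff_nhds.1 hx _ h2
    exact ⟨y, hy2, hy1⟩
  choose y hyC hyO using h1
  have hlim : Tendsto (fun m => (y m : X)) atTop (𝓝 (x : X)) := by
    apply hK.tendsto_nhds_of_unique_mapClusterPt
    · exact Eventually.of_forall fun m => (y m).2
    · intro z _ hz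
      have hz' : MapClusterPt ((x : X), z) atTop fun m => ((x : X), (y m : X)) := by
        exact hz.continuousAt_comp
          (by fun_prop : ContinuousAt (fun w : X => ((x : X), w)) z)
      exact (mem_closure_of_seq hO tendsto_id hyO hz').symm
  exact hC (fun m => hyC m) hlim

/-! ### Families of neighbourhoods of the diagonal -/

/-- The traces of the neighbourhoods of the identity of the free topological group. -/
structure Trace (W : ℕ → Set (X × X)) : Prop where
  anti : ∀ m n, m ≤ n → W n ⊆ W m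
  seq : ∀ (x : X) (y : ℕ → X) (k : ℕ), Tendsto y atTop (𝓝 x) → ∀ᶠ j in atTop, (x, y j) ∈ W k
  small : ∀ (f : X → BoundedContinuousFunction ℕ ℝ), Continuous f → ∀ ε > 0, ∃ k, ∀ x y,
    (x, y) ∈ W k → dist (f x) (f y) < ε

/-- `x` is not isolated. -/
def NonIso (x : X) : Prop := ¬ IsOpen ({x} : Set X)

lemma NonIso.exists_seq [SequentialSpace X] {x : X} (h : NonIso x) :
    ∃ z : ℕ → X, (∀ i, z i ≠ x) ∧ Tendsto z atTop (𝓝 x) := by
  have h1 : ¬ IsSeqClosed ({x}ᶜ : Set X) := by
    intro h2
    exact h (isClosed_compl_iff.1 h2.isClosed)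
  simp only [IsSeqClosed, not_forall] at h1
  obtain ⟨z, p, hz, hzp, hp⟩ := h1
  have hpx : p = x := by
    by_contra hne
    exact hp hne
  subst hpx
  exact ⟨z, fun i => hz i, hzp⟩

lemma exists_subseq_of_finite_fibres {j : ℕ → ℕ} (h : ∀ n, {i | j i = n}.Finite) :
    ∃ φ : ℕ → ℕ, StrictMono φ ∧ StrictMono (j ∘ φ) := by
  apply strictMono_subseq_of_tendsto_atTop
  rw [← Nat.cofinite_eq_atTop]
  exact Tendsto.cofinite_of_finite_preimage_singleton h

lemma exists_open_closure_subset [RegularSpace X] {x : X} {U : Set X} (hU : IsOpen U)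
    (hx : x ∈ U) : ∃ V : Set X, IsOpen V ∧ x ∈ V ∧ closure V ⊆ U := by
  obtain ⟨t, ht, htc, htU⟩ := exists_mem_nhds_isClosed_subset (hU.mem_nhds hx)
  exact ⟨interior t, isOpen_interior, mem_interior_iff_mem_nhds.2 ht,
    (closure_minimal interior_subset htc).trans htU⟩

/-- The map to the space of bounded sequences given by a locally finite family of functions. -/
lemma continuous_family {V : ℕ → Set X} (hV : LocallyFinite V) (g : ℕ → X → ℝ)
    (hg : ∀ j, Continuous (g j)) (hb : ∀ j x, ‖g j x‖ ≤ 1) (h0 : ∀ j x, x ∉ V j → g j x = 0) :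
    Continuous fun x => BoundedContinuousFunction.ofNormedAddCommGroupDiscrete
      (fun j => g j x) 1 (fun j => hb j x) := by
  rw [Metric.continuous_iff']
  intro y ε hε
  obtain ⟨N, hN, hfin⟩ := hV y
  have h1 : ∀ᶠ x in 𝓝 y, ∀ j ∈ {j | (V j ∩ N).Nonempty}, dist (g j x) (g j y) < ε / 2 := by
    rw [eventually_all_finite hfin]
    intro j _
    exact Metric.continuous_iff'.1 (hg j) y (ε / 2) (by positivity)
  filter_upwards [h1, hN] with x hx hxN
  refine lt_of_le_of_lt ((BoundedContinuousFunction.dist_le (by positivity : 0 ≤ ε / 2)).2 ?_)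
    (by linarith)
  intro j
  by_cases hj : (V j ∩ N).Nonempty
  · exact (hx j hj).le
  · have hxj : x ∉ V j := fun h => hj ⟨x, h, hxN⟩
    have hyj : y ∉ V j := fun h => hj ⟨y, h, mem_of_mem_nhds hN⟩
    change dist (g j x) (g j y) ≤ ε / 2
    rw [h0 j x hxj, h0 j y hyj, dist_self]
    positivity

/-- The main lemma: open sets which meet the set of the nonisolated points in points `a j` contain
the members of a convergent sequence. -/
lemma conv_pts [T35Space X] [SequentialSpace X] {W : ℕ → Set (X × X)} (hW : Trace W)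
    (a : ℕ → X) (ha : ∀ j, NonIso (a j)) (A : ℕ → Set X) (hA : ∀ j, IsOpen (A j))
    (haA : ∀ j, a j ∈ A j) :
    ∃ (φ : ℕ → ℕ) (x : ℕ → X) (p : X), StrictMono φ ∧ (∀ i, x i ∈ A (φ i)) ∧
      Tendsto x atTop (𝓝 p) := by
  by_contra hcon
  push Not at hcon
  -- smaller open sets
  choose V hV haV hVA using fun j => exists_open_closure_subset (hA j) (haA j)
  -- every point lies in finitely many of the sets
  have hpf : ∀ y : X, {j | y ∈ A j}.Finite := by
    intro y
    by_contra hinf
    obtain ⟨φ, hφ, hφA⟩ := extraction_of_frequently_atTop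
      (Nat.frequently_atTop_iff_infinite.2 hinf)
    exact hcon φ (fun _ => y) y hφ hφA tendsto_const_nhds
  -- unions of closures are closed
  have hcl : ∀ I : Set ℕ, IsClosed (⋃ j ∈ I, closure (V j)) := by
    intro I
    apply IsSeqClosed.isClosed
    intro y p hy hp
    by_contra hpn
    simp only [mem_iUnion, exists_prop] at hy hpn
    push Not at hpn
    choose j hjI hj using hy
    have hfib : ∀ n, {i | j i = n}.Finite := by
      intro n
      by_contra hinf
      have hfr := Nat.frequently_atTop_iff_infinite.2 hinf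
      obtain ⟨i, hi⟩ := hfr.exists
      have hnI : n ∈ I := by
        have := hjI i
        rw [hi] at this
        exact this
      apply hpn n hnI
      have h2 : ∃ᶠ i in atTop, y i ∈ closure (V n) := hfr.mono fun i hi => by
        have := hj i
        rw [hi] at this
        exact this
      exact isClosed_closure.mem_of_frequently_of_tendsto h2 hp
    obtain ⟨φ, hφ, hjφ⟩ := exists_subseq_of_finite_fibres hfib
    exact hcon (j ∘ φ) (y ∘ φ) p hjφ (fun i => hVA _ (hj (φ i))) (hp.comp hφ.tendsto_atTop)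
  have hlf : LocallyFinite V := by
    intro y
    refine ⟨(⋃ j ∈ {j | y ∉ closure (V j)}, closure (V j))ᶜ,
      (hcl _).isOpen_compl.mem_nhds ?_, ?_⟩
    · simp
    · refine (hpf y).subset ?_
      rintro j ⟨z, hzV, hz⟩
      by_contra hjy
      apply hz
      simp only [mem_iUnion, exists_prop, mem_ofPred_eq]
      exact ⟨j, fun h => hjy (hVA j h), subset_closure hzV⟩
  -- points near the points `a j`
  have hy : ∀ j, ∃ y, y ∈ V j ∧ y ≠ a j ∧ (a j, y) ∈ W j := by
    intro j
    obtain ⟨z, hz, hza⟩ := (ha j).exists_seq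
    obtain ⟨i, hi1, hi2⟩ := ((hza.eventually ((hV j).mem_nhds (haV j))).and
      (hW.seq (a j) z j hza)).exists
    exact ⟨z i, hi1, hz i, hi2⟩
  choose y hyV hya hyW using hy
  -- functions
  have hf : ∀ j, ∃ g : X → ℝ, Continuous g ∧ (∀ x, ‖g x‖ ≤ 1) ∧ (∀ x, x ∉ V j → g x = 0) ∧
      g (a j) = 0 ∧ g (y j) = 1 := by
    intro j
    have hop : IsOpen (V j \ {a j}) := (hV j).sdiff isClosed_singleton
    obtain ⟨f, hf, hf0, hf1⟩ := CompletelyRegularSpace.completely_regular (y j)
      (V j \ {a j})ᶜ hop.isClosed_compl (by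
        intro h
        exact h ⟨hyV j, hya j⟩)
    refine ⟨fun x => 1 - (f x : ℝ), by fun_prop, fun x => ?_, fun x hx => ?_, ?_, ?_⟩
    · rw [Real.norm_eq_abs, abs_le]
      have := (f x).2
      constructor <;> linarith [this.1, this.2]
    · have : f x = 1 := hf1 (fun h => hx h.1)
      simp [this]
    · have : f (a j) = 1 := hf1 (fun h => h.2 rfl)
      simp [this]
    · simp [hf0]
  choose g hg hg1 hg0 hga hgy using hf
  obtain ⟨k, hk⟩ := hW.small _ (continuous_family hlf g hg hg1 hg0) 1 one_pos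
  have h3 := hk (a k) (y k) (hyW k)
  have h4 := BoundedContinuousFunction.dist_coe_le_dist
    (f := BoundedContinuousFunction.ofNormedAddCommGroupDiscrete
      (fun j => g j (a k)) 1 (fun j => hg1 j (a k)))
    (g := BoundedContinuousFunction.ofNormedAddCommGroupDiscrete
      (fun j => g j (y k)) 1 (fun j => hg1 j (y k))) k
  have h5 : dist (g k (a k)) (g k (y k)) = 1 := by
    rw [hga, hgy]
    simp
  have h6 : dist (g k (a k)) (g k (y k)) < 1 := lt_of_le_of_lt h4 h3
  rw [h5] at h6
  exact lt_irrefl _ h6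

/-- The set of the nonisolated points is sequentially compact. -/
lemma nonIso_subseq [T35Space X] [SequentialSpace X] {W O : ℕ → Set (X × X)} (hW : Trace W)
    (hO : DiagSeq O) (v : ℕ → X) (hv : ∀ j, NonIso (v j)) :
    ∃ (φ : ℕ → ℕ) (p : X), StrictMono φ ∧ Tendsto (v ∘ φ) atTop (𝓝 p) := by
  -- small neighbourhoods
  have h1 : ∀ j, ∃ A : Set X, IsOpen A ∧ v j ∈ A ∧ A ×ˢ A ⊆ O j := by
    intro j
    obtain ⟨A, B, hA, hB, h1, h2, h3⟩ := isOpen_prod_iff.1 (hO.1 j) (v j) (v j) (hO.2.1 j _)
    exact ⟨A ∩ B, hA.inter hB, ⟨h1, h2⟩,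
      (prod_mono inter_subset_left inter_subset_right).trans h3⟩
  choose A hA hvA hAO using h1
  obtain ⟨φ, x, p, hφ, hx, hxp⟩ := conv_pts hW v hv A hA hvA
  refine ⟨φ, p, hφ, ?_⟩
  rw [tendsto_nhds]
  intro G hG hpG
  by_contra hnev
  have hfr : ∃ᶠ i in atTop, v (φ i) ∉ G := by
    rw [← not_eventually]
    exact fun h => hnev (h.mono fun i hi => by simpa using hi)
  obtain ⟨ψ, hψ, hψG⟩ := extraction_of_frequently_atTop hfr
  obtain ⟨G1, hG1, hpG1, hG1G⟩ := exists_open_closure_subset hG hpG
  obtain ⟨χ, x', p', hχ, hx', hxp'⟩ := conv_pts hW (fun i => v (φ (ψ i))) (fun i => hv _)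
    (fun i => A (φ (ψ i)) \ closure G1) (fun i => (hA _).sdiff isClosed_closure)
    (fun i => ⟨hvA _, fun h => hψG i (hG1G h)⟩)
  have hpp : p = p' := by
    have hmono : StrictMono fun i => φ (ψ (χ i)) := hφ.comp (hψ.comp hχ)
    refine mem_closure_of_seq hO (a := fun i => x (ψ (χ i))) (b := x') hmono.tendsto_atTop
      (fun i => hAO _ ⟨hx _, (hx' i).1⟩) ?_
    apply Tendsto.mapClusterPt
    exact ((hxp.comp (hψ.comp hχ).tendsto_atTop).prodMk_nhds hxp')
  have h2 : p' ∉ G1 := by
    have : p' ∈ G1ᶜ := hG1.isClosed_compl.mem_of_tendsto hxp'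
      (Eventually.of_forall fun i h => (hx' i).2 (subset_closure h))
    exact this
  exact h2 (hpp ▸ hpG1)

/-- A sequence of different isolated points with closed range. -/
def DiscSeq (p : ℕ → X) : Prop :=
  Function.Injective p ∧ (∀ j, IsOpen ({p j} : Set X)) ∧ IsClosed (range p)

/-- The dichotomy: every sequence has a subsequence which converges or is a sequence of different
isolated points with closed range. -/
lemma dichotomy [T35Space X] [SequentialSpace X] {W O : ℕ → Set (X × X)} (hW : Trace W)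
    (hO : DiagSeq O) (v : ℕ → X) :
    ∃ φ : ℕ → ℕ, StrictMono φ ∧ ((∃ p : X, Tendsto (v ∘ φ) atTop (𝓝 p)) ∨ DiscSeq (v ∘ φ)) := by
  by_cases h1 : ∃ᶠ j in atTop, NonIso (v j)
  · obtain ⟨φ, hφ, hφN⟩ := extraction_of_frequently_atTop h1
    obtain ⟨ψ, p, hψ, hp⟩ := nonIso_subseq hW hO (v ∘ φ) hφN
    exact ⟨φ ∘ ψ, hφ.comp hψ, Or.inl ⟨p, hp⟩⟩
  · have h2 : ∀ᶠ j in atTop, IsOpen ({v j} : Set X) := by
      rw [not_frequently] at h1
      filter_upwards [h1] with j hj
      unfold NonIso at hj
      push Not at hj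
      exact hj
    by_cases h3 : ∃ x, {j | v j = x}.Infinite
    · obtain ⟨x, hx⟩ := h3
      obtain ⟨φ, hφ, hφx⟩ := extraction_of_frequently_atTop
        (Nat.frequently_atTop_iff_infinite.2 hx)
      refine ⟨φ, hφ, Or.inl ⟨x, ?_⟩⟩
      have : v ∘ φ = fun _ => x := funext hφx
      rw [this]
      exact tendsto_const_nhds
    · push Not at h3
      obtain ⟨N, hN⟩ := eventually_atTop.1 h2
      -- an injective subsequence
      have h4 : ∃ φ : ℕ → ℕ, StrictMono φ ∧ ∀ n, N ≤ φ n ∧ ∀ i < φ n, v i ≠ v (φ n) := by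
        apply Nat.exists_strictMono_subsequence (P := fun n => N ≤ n ∧ ∀ i < n, v i ≠ v n)
        intro M
        have hfin : {n | v n ∈ v '' Iic (max M N)}.Finite := by
          have : {n | v n ∈ v '' Iic (max M N)} ⊆ ⋃ x ∈ v '' Iic (max M N), {j | v j = x} := by
            intro n hn
            exact mem_biUnion hn rfl
          exact (((finite_Iic _).image v).biUnion fun x _ => h3 x).subset this
        have hex : ∃ n, v n ∉ v '' Iic (max M N) := by
          obtain ⟨n, hn⟩ := hfin.infinite_compl.nonempty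
          exact ⟨n, hn⟩
        classical
        refine ⟨Nat.find hex, ?_, ?_, ?_⟩
        · by_contra hle
          push Not at hle
          exact Nat.find_spec hex ⟨_, hle.trans (le_max_left M N), rfl⟩
        · by_contra hle
          push Not at hle
          exact Nat.find_spec hex ⟨_, hle.le.trans (le_max_right M N), rfl⟩
        · intro i hi he
          have h5 := Nat.find_min hex hi
          push Not at h5
          rw [he] at h5
          exact Nat.find_spec hex h5
      obtain ⟨φ, hφ, hφN⟩ := h4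
      have hinj : Function.Injective (v ∘ φ) := by
        intro a b hab
        by_contra hne
        rcases lt_or_gt_of_ne hne with h | h
        · exact (hφN b).2 (φ a) (hφ h) hab
        · exact (hφN a).2 (φ b) (hφ h) hab.symm
      by_cases hcl : IsClosed (range (v ∘ φ))
      · exact ⟨φ, hφ, Or.inr ⟨hinj, fun j => hN _ (hφN j).1, hcl⟩⟩
      · have h5 : ¬ IsSeqClosed (range (v ∘ φ)) := fun h => hcl h.isClosed
        simp only [IsSeqClosed, not_forall] at h5
        obtain ⟨y, p, hy, hyp, hp⟩ := h5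
        choose j hj using hy
        have hfib : ∀ n, {i | j i = n}.Finite := by
          intro n
          by_contra hinf
          have hfr := Nat.frequently_atTop_iff_infinite.2 hinf
          apply hp
          refine ⟨n, ?_⟩
          have h6 : ∃ᶠ i in atTop, y i ∈ ({(v ∘ φ) n} : Set X) := hfr.mono fun i hi => by
            have h7 := hj i
            rw [hi] at h7
            exact h7.symm
          have h8 := isClosed_singleton.mem_of_frequently_of_tendsto h6 hyp
          exact h8.symm
        obtain ⟨ψ, hψ, hjψ⟩ := exists_subseq_of_finite_fibres hfib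
        refine ⟨φ ∘ (j ∘ ψ), hφ.comp hjψ, Or.inl ⟨p, ?_⟩⟩
        have : v ∘ (φ ∘ (j ∘ ψ)) = y ∘ ψ := funext fun i => hj (ψ i)
        rw [this]
        exact hyp.comp hψ.tendsto_atTop

/-- Subsequences of discrete sequences are discrete. -/
lemma DiscSeq.comp {p : ℕ → X} (hp : DiscSeq p) {φ : ℕ → ℕ} (hφ : StrictMono φ) :
    DiscSeq (p ∘ φ) := by
  refine ⟨hp.1.comp hφ.injective, fun j => hp.2.1 _, ?_⟩
  have h1 : range (p ∘ φ) = range p \ ⋃ j ∈ {j | j ∉ range φ}, {p j} := by
    ext x
    constructor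
    · rintro ⟨i, rfl⟩
      refine ⟨⟨φ i, rfl⟩, ?_⟩
      simp only [mem_iUnion, not_exists]
      rintro j hj h
      exact hj ⟨i, hp.1 h⟩
    · rintro ⟨⟨j, rfl⟩, h⟩
      by_contra hn
      apply h
      simp only [mem_iUnion, exists_prop]
      refine ⟨j, ?_, rfl⟩
      rintro ⟨i, rfl⟩
      exact hn ⟨i, rfl⟩
  rw [h1]
  exact hp.2.2.sdiff (isOpen_biUnion fun j _ => hp.2.1 j)

/-- The locally constant map which separates the members of a discrete sequence. -/
lemma DiscSeq.exists_map {p : ℕ → X} (hp : DiscSeq p) :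
    ∃ ψ : X → Option ℕ, (∀ V : Set (Option ℕ), IsOpen (ψ ⁻¹' V)) ∧
      ∀ x j, ψ x = some j ↔ x = p j := by
  classical
  let ψ : X → Option ℕ := fun x => if h : ∃ j, p j = x then some h.choose else none
  have hψ1 : ∀ j, ψ (p j) = some j := by
    intro j
    have h : ∃ i, p i = p j := ⟨j, rfl⟩
    simp only [ψ, dif_pos h]
    rw [hp.1 h.choose_spec]
  have hψ2 : ∀ x j, ψ x = some j ↔ x = p j := by
    intro x j
    constructor
    · intro h
      by_cases hx : ∃ i, p i = x
      · simp only [ψ, dif_pos hx, Option.some.injEq] at h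
        rw [← h, hx.choose_spec]
      · simp only [ψ, dif_neg hx] at h
        exact absurd h (by simp)
    · rintro rfl
      exact hψ1 j
  refine ⟨ψ, fun V => ?_, hψ2⟩
  rw [isOpen_iff_mem_nhds]
  intro x hx
  by_cases h : ∃ j, p j = x
  · obtain ⟨j, rfl⟩ := h
    refine mem_of_superset ((hp.2.1 j).mem_nhds rfl) ?_
    rintro _ rfl
    exact hx
  · have h1 : x ∈ (range p)ᶜ := h
    refine mem_of_superset (hp.2.2.isOpen_compl.mem_nhds h1) ?_
    intro y hy
    have hy' : ¬ ∃ j, p j = y := hy
    have h2 : ψ y = ψ x := by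
      simp only [ψ, dif_neg h, dif_neg hy']
    change ψ y ∈ V
    rw [h2]
    exact hx

end Q178.Snf
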