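import Pool.Agent.Q178.Snf.Top

set_option autoImplicit false

/-!
Convergence of words letter by letter.
-/

universe u

namespace Q178.Snf

open Set Filter Topology

variable {X : Type u} [TopologicalSpace X]

/-- Letterwise convergence of a sequence of words with constant signs. -/
inductive LConv : (ℕ → List (X × Bool)) → List (X × Bool) → Prop
  | nil : LConv (fun _ => []) []
  | cons (x : ℕ → X) (a : X) (b : Bool) (L : ℕ → List (X × Bool)) (M : List (X × Bool)) :
    Tendsto x atTop (𝓝 a) → LConv L M → LConv (fun j => (x j, b) :: L j) ((a, b) :: M)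

/-- Letters with the same sign which are close to each other. -/
def LRel (W : Set (X × X)) (p q : X × Bool) : Prop := p.2 = q.2 ∧ (p.1, q.1) ∈ W

lemma LConv.eventually_rel {W : ℕ → Set (X × X)}
    (hW : ∀ (x : X) (y : ℕ → X) (k : ℕ), Tendsto y atTop (𝓝 x) → ∀ᶠ j in atTop, (x, y j) ∈ W k)
    {L : ℕ → List (X × Bool)} {M : List (X × Bool)} (h : LConv L M) (k : ℕ) :
    ∀ᶠ j in atTop, List.Forall₂ (LRel (W k)) M (L j) := by
  induction h with
  | nil => exact Eventually.of_forall fun _ => List.Forall₂.nil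
  | cons x a b L M hx _ ih =>
    filter_upwards [ih, hW a x k hx] with j h1 h2
    exact List.Forall₂.cons ⟨rfl, h2⟩ h1

lemma LConv.length {L : ℕ → List (X × Bool)} {M : List (X × Bool)} (h : LConv L M) (j : ℕ) :
    (L j).length = M.length := by
  induction h with
  | nil => rfl
  | cons x a b L M hx _ ih => simp [ih]

lemma extract (hd : ∀ v : ℕ → X, ∃ φ : ℕ → ℕ, StrictMono φ ∧
      ((∃ p : X, Tendsto (v ∘ φ) atTop (𝓝 p)) ∨ DiscSeq (v ∘ φ))) :
    ∀ (n : ℕ) (L : ℕ → List (X × Bool)), (∀ j, (L j).length ≤ n) →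
      ∃ φ : ℕ → ℕ, StrictMono φ ∧ ((∃ M, LConv (L ∘ φ) M) ∨
        ∃ p : ℕ → X, DiscSeq p ∧ ∀ j, ∃ b, (p j, b) ∈ L (φ j)) := by
  intro n
  induction n with
  | zero =>
    intro L hL
    refine ⟨id, strictMono_id, Or.inl ⟨[], ?_⟩⟩
    have : L ∘ id = fun _ => [] := by
      funext j
      exact List.length_eq_zero_iff.1 (Nat.le_zero.1 (hL j))
    rw [this]
    exact LConv.nil
  | succ n ih =>
    intro L hL
    by_cases h0 : ∃ᶠ j in atTop, L j = []
    · obtain ⟨φ, hφ, hφL⟩ := extraction_of_frequently_atTop h0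
      refine ⟨φ, hφ, Or.inl ⟨[], ?_⟩⟩
      have : L ∘ φ = fun _ => [] := funext hφL
      rw [this]
      exact LConv.nil
    · have h1 : ∃ b : Bool, ∃ᶠ j in atTop, ∃ x T, L j = (x, b) :: T := by
        by_contra hcon
        push Not at hcon
        rw [not_frequently] at h0
        have ht := hcon true
        have hf := hcon false
        obtain ⟨j, hj0, hjt, hjf⟩ := (h0.and (ht.and hf)).exists
        rcases hj : L j with _ | ⟨⟨x, b⟩, T⟩
        · exact hj0 hj
        · cases b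
          · exact hjf x T hj
          · exact hjt x T hj
      obtain ⟨b, hb⟩ := h1
      obtain ⟨φ, hφ, hφL⟩ := extraction_of_frequently_atTop hb
      choose x T hxT using hφL
      obtain ⟨ψ, hψ, ⟨p, hp⟩ | hp⟩ := hd x
      · have hT : ∀ j, ((T ∘ ψ) j).length ≤ n := by
          intro j
          have h2 := hL (φ (ψ j))
          rw [hxT] at h2
          simpa using h2
        obtain ⟨χ, hχ, ⟨M, hM⟩ | ⟨p', hp', hpT⟩⟩ := ih (T ∘ ψ) hT
        · refine ⟨φ ∘ (ψ ∘ χ), hφ.comp (hψ.comp hχ), Or.inl ⟨(p, b) :: M, ?_⟩⟩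
          have : L ∘ (φ ∘ (ψ ∘ χ)) = fun j => (x (ψ (χ j)), b) :: (T ∘ ψ ∘ χ) j :=
            funext fun j => hxT (ψ (χ j))
          rw [this]
          exact LConv.cons _ _ _ _ _ (hp.comp hχ.tendsto_atTop) hM
        · refine ⟨φ ∘ (ψ ∘ χ), hφ.comp (hψ.comp hχ), Or.inr ⟨p', hp', fun j => ?_⟩⟩
          obtain ⟨b', hb'⟩ := hpT j
          refine ⟨b', ?_⟩
          change _ ∈ L (φ (ψ (χ j)))
          rw [hxT]
          exact List.mem_cons_of_mem _ hb'
      · refine ⟨φ ∘ ψ, hφ.comp hψ, Or.inr ⟨x ∘ ψ, hp, fun j => ⟨b, ?_⟩⟩⟩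
        change _ ∈ L (φ (ψ j))
        rw [hxT]
        exact List.mem_cons_self

end Q178.Snf
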